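import Mathlib
import Pool.Agent.NPC.Defs

/-!
# Circuits with AND, OR and NOT gates, as data
-/

set_option autoImplicit false

namespace Pool.Agent.W954.Sav

open Pool.Agent.NPC

/-- A gate: its kind (`0` for NOT, `1` for AND, all other numbers for OR) and the numbers of the two
vertices it reads (NOT ignores the second one). -/
abbrev Gate : Type := ℕ × ℕ × ℕ

/-- The value of a gate, if `v` is the list of the values of the vertices before it. -/
def gval (v : List Bool) (g : Gate) : Bool :=
  if g.1 = 0 then !(v.getD g.2.1 false)
  else if g.1 = 1 then v.getD g.2.1 false && v.getD g.2.2 false
  else v.getD g.2.1 false || v.getD g.2.2 false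

/-- The values of the vertices of a circuit on the input `x`: first the constants `0` and `1`, then
the input bits, then the gates in their order. -/
def values (gates : List Gate) (x : List Bool) : List Bool :=
  gates.foldl (fun v g => v ++ [gval v g]) (false :: true :: x)

/-- A circuit with `n` inputs. The vertices `0` and `1` are the constants, the vertices
`2, ..., n + 1` are the inputs, and the vertex `n + 2 + k` is the `k`-th gate, which reads vertices
with smaller numbers; `out` is the output vertex. -/
structure Circuit (n : ℕ) where
  gates : List Gate
  out : ℕ
  wf : ∀ (k : ℕ) (g : Gate), gates[k]? = some g → g.2.1 < n + 2 + k ∧ g.2.2 < n + 2 + k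
  out_lt : out < n + 2 + gates.length

/-- The number of gates. -/
def Circuit.size {n : ℕ} (C : Circuit n) : ℕ := C.gates.length

/-- The number of NOT gates. -/
def Circuit.nots {n : ℕ} (C : Circuit n) : ℕ := (C.gates.filter fun g => g.1 = 0).length

/-- The output on the input `x`. -/
def Circuit.eval {n : ℕ} (C : Circuit n) (x : Fin n → Bool) : Bool :=
  (values C.gates (List.ofFn x)).getD C.out false

/-- The description of a circuit: the bit string coding the list of the gates and the number of the
output vertex (numbers are coded in binary). -/
def Circuit.desc {n : ℕ} (C : Circuit n) : List Bool := bits (C.gates, C.out)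

/-- The number of ones of a 0-1 vector. -/
def wt {n : ℕ} (x : Fin n → Bool) : ℕ := (Finset.univ.filter fun i => x i = true).card

/-- A monotone language: changing zeros of a word to ones does not lead out of the language. -/
def MonoLang (L : Set (List Bool)) : Prop :=
  ∀ (n : ℕ) (x y : Fin n → Bool), x ≤ y → List.ofFn x ∈ L → List.ofFn y ∈ L

end Pool.Agent.W954.Sav
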