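import Pool.Agent.W954.Sav.Win
import Pool.Agent.W954.Sav.Defs

/-!
# Circuits as data and straight-line programs
-/

set_option autoImplicit false

namespace Pool.Agent.W954.Sav

theorem values_append (gs : List Gate) (g : Gate) (x : List Bool) :
    values (gs ++ [g]) x = values gs x ++ [gval (values gs x) g] := by
  unfold values
  rw [List.foldl_append]
  rfl

theorem length_values (gs : List Gate) (x : List Bool) :
    (values gs x).length = x.length + 2 + gs.length := by
  induction gs using List.reverseRecOn with
  | nil => rfl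
  | append_singleton gs g ih =>
    rw [values_append, List.length_append, ih, List.length_append]
    simp
    omega

theorem values_prefix (gs : List Gate) (x : List Bool) :
    ∃ r, values gs x = (false :: true :: x) ++ r := by
  induction gs using List.reverseRecOn with
  | nil => exact ⟨[], by simp [values]⟩
  | append_singleton gs g ih =>
    obtain ⟨r, hr⟩ := ih
    exact ⟨r ++ [gval (values gs x) g], by rw [values_append, hr, List.append_assoc]⟩

theorem getD_values_lt (gs : List Gate) (x : List Bool) (k : ℕ) (hk : k < x.length + 2) :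
    (values gs x).getD k false = (false :: true :: x).getD k false := by
  obtain ⟨r, hr⟩ := values_prefix gs x
  rw [hr, List.getD_append _ _ _ _ (by simp only [List.length_cons]; omega)]

theorem getD_append_old (gs : List Gate) (g : Gate) (x : List Bool) (k : ℕ)
    (hk : k < x.length + 2 + gs.length) :
    (values (gs ++ [g]) x).getD k false = (values gs x).getD k false := by
  rw [values_append, List.getD_append _ _ _ _ (by rw [length_values]; exact hk)]

theorem getD_append_new (gs : List Gate) (g : Gate) (x : List Bool) :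
    (values (gs ++ [g]) x).getD (x.length + 2 + gs.length) false = gval (values gs x) g := by
  rw [values_append, List.getD_append_right _ _ _ _ (by rw [length_values]), length_values]
  simp

/-- well-formed lists of gates -/
def WF (n : ℕ) (gs : List Gate) : Prop :=
  ∀ (k : ℕ) (g : Gate), gs[k]? = some g → g.2.1 < n + 2 + k ∧ g.2.2 < n + 2 + k

theorem WF.append {n : ℕ} {gs : List Gate} (h : WF n gs) {g : Gate}
    (h1 : g.2.1 < n + 2 + gs.length) (h2 : g.2.2 < n + 2 + gs.length) : WF n (gs ++ [g]) := by
  intro k g' hk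
  rcases lt_trichotomy k gs.length with hlt | heq | hgt
  · rw [List.getElem?_append_left hlt] at hk
    exact h k g' hk
  · subst heq
    rw [List.getElem?_concat_length] at hk
    cases hk
    exact ⟨h1, h2⟩
  · rw [List.getElem?_eq_none (by simp; omega)] at hk
    cases hk

theorem WF.left {n : ℕ} {gs : List Gate} {g : Gate} (h : WF n (gs ++ [g])) :
    WF n gs ∧ g.2.1 < n + 2 + gs.length ∧ g.2.2 < n + 2 + gs.length := by
  refine ⟨fun k g' hk => ?_, ?_⟩
  · have hlt : k < gs.length := by
      by_contra hcon
      rw [List.getElem?_eq_none (by omega)] at hk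
      cases hk
    exact h k g' (by rw [List.getElem?_append_left hlt]; exact hk)
  · exact h gs.length g List.getElem?_concat_length

variable {n : ℕ}

/-- the function computed at a vertex -/
def vfun (n : ℕ) (gs : List Gate) (k : ℕ) : (Fin n → Bool) → Bool :=
  fun x => (values gs (List.ofFn x)).getD k false

/-- number of NOT gates in a list -/
def nnots (gs : List Gate) : ℕ := (gs.filter fun g => g.1 = 0).length

theorem nnots_append (gs : List Gate) (g : Gate) :
    nnots (gs ++ [g]) = nnots gs + if g.1 = 0 then 1 else 0 := by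
  unfold nnots
  rw [List.filter_append, List.length_append]
  by_cases h : g.1 = 0 <;> simp [h]

theorem vfun_input (gs : List Gate) {f : (Fin n → Bool) → Bool} (hf : f ∈ Inp n) :
    ∃ k < n + 2 + gs.length, vfun n gs k = f := by
  rcases hf with ⟨i, rfl⟩ | ⟨b, rfl⟩
  · refine ⟨i + 2, by omega, ?_⟩
    funext x
    unfold vfun
    rw [getD_values_lt _ _ _ (by simp)]
    simp [List.getD]
  · cases b with
    | false =>
      refine ⟨0, by omega, ?_⟩
      funext x
      unfold vfun
      rw [getD_values_lt _ _ _ (by simp)]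
      rfl
    | true =>
      refine ⟨1, by omega, ?_⟩
      funext x
      unfold vfun
      rw [getD_values_lt _ _ _ (by simp)]
      rfl

theorem vfun_old (gs : List Gate) (g : Gate) (k : ℕ) (hk : k < n + 2 + gs.length) :
    vfun n (gs ++ [g]) k = vfun n gs k := by
  funext x
  exact getD_append_old gs g _ k (by rw [List.length_ofFn]; exact hk)

theorem vfun_new (gs : List Gate) (g : Gate) :
    vfun n (gs ++ [g]) (n + 2 + gs.length) = fun x => gval (values gs (List.ofFn x)) g := by
  funext x
  have := getD_append_new gs g (List.ofFn x)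
  rw [List.length_ofFn] at this
  exact this

/-- From straight-line programs to lists of gates. -/
theorem slp_gates {a t : ℕ} {l : List ((Fin n → Bool) → Bool)} (h : SLP (Inp n) a t l) :
    ∃ gs : List Gate, WF n gs ∧ gs.length = a + t ∧ nnots gs = t ∧
      (∀ f, f ∈ l ∨ f ∈ Inp n → ∃ k < n + 2 + gs.length, vfun n gs k = f) ∧
      ∀ g ∈ gs, g.1 ≤ 2 := by
  have step : ∀ (gs : List Gate) (g : Gate) (l : List ((Fin n → Bool) → Bool))
      (f' : (Fin n → Bool) → Bool), (∀ f, f ∈ l ∨ f ∈ Inp n →
        ∃ k < n + 2 + gs.length, vfun n gs k = f) →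
      (∀ x, gval (values gs (List.ofFn x)) g = f' x) →
      ∀ f, f ∈ f' :: l ∨ f ∈ Inp n → ∃ k < n + 2 + (gs ++ [g]).length,
        vfun n (gs ++ [g]) k = f := by
    intro gs g l f' h1 h2 f hf
    have old : (f ∈ l ∨ f ∈ Inp n) → ∃ k < n + 2 + (gs ++ [g]).length,
        vfun n (gs ++ [g]) k = f := by
      intro h
      obtain ⟨k, hk, h3⟩ := h1 f h
      exact ⟨k, by rw [List.length_append]; omega, by rw [vfun_old _ _ _ hk, h3]⟩
    rcases hf with hf | hf
    · rcases List.mem_cons.1 hf with rfl | hf
      · refine ⟨n + 2 + gs.length, by rw [List.length_append]; simp, ?_⟩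
        rw [vfun_new]
        funext x
        exact h2 x
      · exact old (Or.inl hf)
    · exact old (Or.inr hf)
  induction h with
  | nil =>
    refine ⟨[], fun k g hk => by simp at hk, rfl, rfl, fun f hf => ?_, by simp⟩
    exact vfun_input [] (by simpa using hf)
  | not a t l f h hf ih =>
    obtain ⟨gs, h1, h2, h3, h4, h5⟩ := ih
    obtain ⟨k, hk, hkf⟩ := h4 f hf
    refine ⟨gs ++ [(0, k, k)], h1.append hk hk, ?_, ?_, step gs _ l _ h4 ?_, ?_⟩
    · rw [List.length_append, h2]; simp; omega
    · rw [nnots_append, h3]; simp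
    · intro x
      rw [← hkf]
      simp [gval, vfun]
    · intro g hg
      rcases List.mem_append.1 hg with hg | hg
      · exact h5 g hg
      · simp [List.mem_singleton.1 hg]
  | and a t l f g h hf hg ih =>
    obtain ⟨gs, h1, h2, h3, h4, h5⟩ := ih
    obtain ⟨k, hk, hkf⟩ := h4 f hf
    obtain ⟨k', hk', hkg⟩ := h4 g hg
    refine ⟨gs ++ [(1, k, k')], h1.append hk hk', ?_, ?_, step gs _ l _ h4 ?_, ?_⟩
    · rw [List.length_append, h2]; simp; omega
    · rw [nnots_append, h3]; simp
    · intro x
      rw [← hkf, ← hkg]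
      simp [gval, vfun]
    · intro g hg
      rcases List.mem_append.1 hg with hg | hg
      · exact h5 g hg
      · simp [List.mem_singleton.1 hg]
  | or a t l f g h hf hg ih =>
    obtain ⟨gs, h1, h2, h3, h4, h5⟩ := ih
    obtain ⟨k, hk, hkf⟩ := h4 f hf
    obtain ⟨k', hk', hkg⟩ := h4 g hg
    refine ⟨gs ++ [(2, k, k')], h1.append hk hk', ?_, ?_, step gs _ l _ h4 ?_, ?_⟩
    · rw [List.length_append, h2]; simp; omega
    · rw [nnots_append, h3]; simp
    · intro x
      rw [← hkf, ← hkg]
      simp [gval, vfun]
    · intro g hg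
      rcases List.mem_append.1 hg with hg | hg
      · exact h5 g hg
      · simp [List.mem_singleton.1 hg]

/-- From straight-line programs to circuits. -/
theorem Cs.circuit {a t : ℕ} {f : (Fin n → Bool) → Bool} (h : Cs (Inp n) a t {f}) :
    ∃ C : Circuit n, C.size ≤ a + t ∧ C.nots ≤ t ∧ C.eval = f ∧ ∀ g ∈ C.gates, g.1 ≤ 2 := by
  obtain ⟨l, a', t', h1, h2, h3, h4⟩ := h
  obtain ⟨gs, g1, g2, g3, g4, g5⟩ := slp_gates h1
  obtain ⟨k, hk, hkf⟩ := g4 f (h4 f rfl)
  refine ⟨⟨gs, k, g1, hk⟩, ?_, ?_, hkf, g5⟩
  · show gs.length ≤ _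
    omega
  · show nnots gs ≤ _
    omega

/-- From lists of gates to straight-line programs. -/
theorem gates_slp (gs : List Gate) (h : WF n gs) :
    ∃ (l : List ((Fin n → Bool) → Bool)) (a : ℕ), SLP (Inp n) a (nnots gs) l ∧
      a + nnots gs = gs.length ∧ ∀ k < n + 2 + gs.length, vfun n gs k ∈ l ∨ vfun n gs k ∈ Inp n := by
  induction gs using List.reverseRecOn with
  | nil =>
    refine ⟨[], 0, SLP.nil, rfl, fun k hk => Or.inr ?_⟩
    have hk' : k < n + 2 := by simpa using hk
    by_cases h0 : k = 0
    · subst h0
      exact Or.inr ⟨false, rfl⟩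
    by_cases h1 : k = 1
    · subst h1
      exact Or.inr ⟨true, rfl⟩
    · refine Or.inl ⟨⟨k - 2, by omega⟩, ?_⟩
      funext x
      obtain ⟨j, rfl⟩ : ∃ j, k = j + 2 := ⟨k - 2, by omega⟩
      have hj : j < n := by omega
      simp [vfun, values, List.getD, hj]
  | append_singleton gs g ih =>
    obtain ⟨h1, h2, h3⟩ := h.left
    obtain ⟨l, a, k1, k2, k3⟩ := ih h1
    have fin : ∀ (l' : List ((Fin n → Bool) → Bool)), (∀ f ∈ l, f ∈ l') →
        (vfun n (gs ++ [g]) (n + 2 + gs.length) ∈ l') →
        ∀ k < n + 2 + (gs ++ [g]).length, vfun n (gs ++ [g]) k ∈ l' ∨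
          vfun n (gs ++ [g]) k ∈ Inp n := by
      intro l' hl hnew k hk
      rw [List.length_append, List.length_singleton] at hk
      by_cases hk' : k < n + 2 + gs.length
      · rw [vfun_old _ _ _ hk']
        exact (k3 k hk').imp_left (hl _)
      · rw [show k = n + 2 + gs.length by omega]
        exact Or.inl hnew
    have e1 := k3 _ h2
    have e2 := k3 _ h3
    by_cases g0 : g.1 = 0
    · have hn : vfun n (gs ++ [g]) (n + 2 + gs.length) = fun x => !vfun n gs g.2.1 x := by
        rw [vfun_new]
        funext x
        simp [gval, g0, vfun]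
      refine ⟨vfun n (gs ++ [g]) (n + 2 + gs.length) :: l, a, ?_, ?_,
        fin _ (fun f hf => List.mem_cons_of_mem _ hf) List.mem_cons_self⟩
      · rw [nnots_append, if_pos g0, hn]
        exact SLP.not _ _ _ _ k1 e1
      · rw [nnots_append, if_pos g0, List.length_append, List.length_singleton]
        omega
    · by_cases g1 : g.1 = 1
      · have hn : vfun n (gs ++ [g]) (n + 2 + gs.length) =
            fun x => vfun n gs g.2.1 x && vfun n gs g.2.2 x := by
          rw [vfun_new]
          funext x
          simp [gval, g1, vfun]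
        refine ⟨vfun n (gs ++ [g]) (n + 2 + gs.length) :: l, a + 1, ?_, ?_,
          fin _ (fun f hf => List.mem_cons_of_mem _ hf) List.mem_cons_self⟩
        · rw [nnots_append, if_neg g0, hn]
          exact SLP.and _ _ _ _ _ k1 e1 e2
        · rw [nnots_append, if_neg g0, List.length_append, List.length_singleton]
          omega
      · have hn : vfun n (gs ++ [g]) (n + 2 + gs.length) =
            fun x => vfun n gs g.2.1 x || vfun n gs g.2.2 x := by
          rw [vfun_new]
          funext x
          simp [gval, g0, g1, vfun]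
        refine ⟨vfun n (gs ++ [g]) (n + 2 + gs.length) :: l, a + 1, ?_, ?_,
          fin _ (fun f hf => List.mem_cons_of_mem _ hf) List.mem_cons_self⟩
        · rw [nnots_append, if_neg g0, hn]
          exact SLP.or _ _ _ _ _ k1 e1 e2
        · rw [nnots_append, if_neg g0, List.length_append, List.length_singleton]
          omega

/-- From circuits to straight-line programs. -/
theorem Circuit.cs (C : Circuit n) : Cs (Inp n) (C.size - C.nots) C.nots {C.eval} := by
  obtain ⟨l, a, h1, h2, h3⟩ := gates_slp C.gates C.wf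
  have h4 : a = C.size - C.nots := by
    show a = C.gates.length - nnots C.gates
    omega
  refine ⟨l, a, nnots C.gates, h1, h4.le, le_rfl, ?_⟩
  rintro f rfl
  exact h3 C.out C.out_lt

theorem Circuit.nots_le (C : Circuit n) : C.nots ≤ C.size := List.length_filter_le _ _

/-! ### Monotone simulation for circuits -/

/-- Windows of `(k + 1) 2 ^ t` slices with `t` NOT gates. -/
theorem circuit_few_nots (C : Circuit n) (hf : Monotone C.eval) (m k t : ℕ) :
    ∃ D : Circuit n, D.nots ≤ t ∧
      D.size ≤ 2 ^ t * ((n + 1) ^ k * (2 * (C.size - C.nots) + 2 * (n + 1) ^ 3) + 5) +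
        2 * n ^ 2 + t ∧
      ∀ x : Fin n → Bool, m ≤ wt x → wt x < m + (k + 1) * 2 ^ t → D.eval x = C.eval x := by
  obtain ⟨D, h1, h2, h3, -⟩ := (few_nots hf C.cs m k t).circuit
  refine ⟨D, h2, h1, fun x hx1 hx2 => ?_⟩
  rw [h3]
  unfold Win
  simp [hx1, show ¬ m + (k + 1) * 2 ^ t ≤ wt x by omega]

end Pool.Agent.W954.Sav
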