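import Pool.Agent.W954.Sav.Lower

/-!
# Small half-clique problems inside windows of slices
-/

set_option autoImplicit false

namespace Pool.Agent.W954.Sav

open Pool.Agent.H520R2.HC

/-- a bit of the small input -/
def gb {N : ℕ} (x : Fin N → Bool) (i : ℕ) : Bool := if h : i < N then x ⟨i, h⟩ else false

theorem getD_ofFn {N : ℕ} (x : Fin N → Bool) (i : ℕ) : (List.ofFn x).getD i false = gb x i := by
  unfold gb
  split_ifs with h
  · rw [List.getD_eq_getElem _ _ (by simpa using h), List.getElem_ofFn]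
  · rw [List.getD_eq_default _ _ (by simpa using h)]

/-- The embedding: the graph on `r` vertices, `h` vertices joined to all of them and to each other,
isolated vertices, and padding in the unused positions. -/
def emb (n r h : ℕ) (S : Finset (Fin n)) (x : Fin (r * r) → Bool) (p : Fin n) : Bool :=
  if p.val / Nat.sqrt n < p.val % Nat.sqrt n then
    (if p.val % Nat.sqrt n < r then gb x (p.val / Nat.sqrt n * r + p.val % Nat.sqrt n)
      else decide (p.val % Nat.sqrt n < r + h))
  else decide (p ∈ S)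

theorem emb_inp (n r h : ℕ) (S : Finset (Fin n)) (p : Fin n) :
    (fun x : Fin (r * r) → Bool => emb n r h S x p) ∈ Inp (r * r) := by
  unfold emb
  split_ifs with h1 h2
  · unfold gb
    split_ifs with h3
    · exact Or.inl ⟨_, rfl⟩
    · exact Or.inr ⟨false, rfl⟩
  · exact Or.inr ⟨_, rfl⟩
  · exact Or.inr ⟨_, rfl⟩

theorem emb_edge {n r h : ℕ} {S : Finset (Fin n)} (x : Fin (r * r) → Bool) {a b : ℕ} (hab : a < b)
    (hb : b < Nat.sqrt n) :
    gb (emb n r h S x) (a * Nat.sqrt n + b) =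
      if b < r then gb x (a * r + b) else decide (b < r + h) := by
  have hv : 0 < Nat.sqrt n := by omega
  have h1 : a * Nat.sqrt n + b < n := by
    have h2 : (a + 1) * Nat.sqrt n ≤ Nat.sqrt n * Nat.sqrt n := Nat.mul_le_mul_right _ (by omega)
    have h3 := Nat.sqrt_le n
    rw [Nat.add_mul, one_mul] at h2
    omega
  have hdiv : (a * Nat.sqrt n + b) / Nat.sqrt n = a := by
    rw [mul_comm, Nat.mul_add_div hv, Nat.div_eq_of_lt hb, add_zero]
  have hmod : (a * Nat.sqrt n + b) % Nat.sqrt n = b := by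
    rw [mul_comm, Nat.mul_add_mod, Nat.mod_eq_of_lt hb]
  unfold gb
  rw [dif_pos h1]
  unfold emb
  simp only [hdiv, hmod, if_pos hab]
  rfl

/-- The embedding is correct. -/
theorem emb_half {n r h : ℕ} {S : Finset (Fin n)} (x : Fin (r * r) → Bool) (hr : Even r)
    (hh : h = (Nat.sqrt n - r + 1) / 2) (hrv : r + 1 ≤ Nat.sqrt n) (hr2 : 2 ≤ r) :
    List.ofFn (emb n r h S x) ∈ HalfClique ↔ List.ofFn x ∈ HalfClique := by
  unfold HalfClique
  simp only [Set.mem_ofPred_eq, List.length_ofFn, Nat.sqrt_eq, getD_ofFn]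
  obtain ⟨r', hr'⟩ := hr
  constructor
  · rintro ⟨T, h1, h2, h3⟩
    have hlt : ∀ b ∈ T, b < r + h := by
      intro b hb
      by_contra hcon
      have h4 : ∀ c ∈ T, c = b := by
        intro c hc
        by_contra hne
        rcases lt_or_gt_of_ne hne with hlt | hgt
        · have := h3 c hc b hb hlt
          rw [emb_edge x hlt (h2 b hb), if_neg (by omega)] at this
          simp at this
          omega
        · have := h3 b hb c hc hgt
          rw [emb_edge x hgt (h2 c hc), if_neg (by omega)] at this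
          simp at this
          omega
      have h5 : T.card ≤ 1 := Finset.card_le_one.2 fun c hc d hd => (h4 c hc).trans (h4 d hd).symm
      omega
    refine ⟨T.filter (· < r), ?_, ?_, ?_⟩
    · have h6 : T.card ≤ (T.filter (· < r)).card + h := by
        have h7 : T ⊆ T.filter (· < r) ∪ (Finset.range h).image (· + r) := by
          intro b hb
          rw [Finset.mem_union]
          by_cases hbr : b < r
          · exact Or.inl (Finset.mem_filter.2 ⟨hb, hbr⟩)
          · refine Or.inr (Finset.mem_image.2 ⟨b - r, ?_, by omega⟩)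
            have := hlt b hb
            rw [Finset.mem_range]
            omega
        refine (Finset.card_le_card h7).trans ((Finset.card_union_le _ _).trans ?_)
        have h8 : ((Finset.range h).image (· + r)).card ≤ h :=
          Finset.card_image_le.trans (by simp)
        omega
      omega
    · intro a ha
      exact (Finset.mem_filter.1 ha).2
    · intro a ha b hb hab
      have := h3 a (Finset.mem_filter.1 ha).1 b (Finset.mem_filter.1 hb).1 hab
      rw [emb_edge x hab (h2 b (Finset.mem_filter.1 hb).1),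
        if_pos (Finset.mem_filter.1 hb).2] at this
      exact this
  · rintro ⟨T, h1, h2, h3⟩
    refine ⟨T ∪ (Finset.range h).image (· + r), ?_, ?_, ?_⟩
    · have h4 : (T ∪ (Finset.range h).image (· + r)).card = T.card + h := by
        rw [Finset.card_union_of_disjoint, Finset.card_image_of_injective]
        · simp
        · intro a b hab
          simpa using hab
        · rw [Finset.disjoint_left]
          intro a ha hb
          obtain ⟨c, _, rfl⟩ := Finset.mem_image.1 hb
          have := h2 _ ha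
          omega
      rw [h4]
      omega
    · intro a ha
      rcases Finset.mem_union.1 ha with ha | ha
      · have := h2 a ha
        omega
      · obtain ⟨c, hc, rfl⟩ := Finset.mem_image.1 ha
        rw [Finset.mem_range] at hc
        omega
    · intro a ha b hb hab
      have hbv : b < Nat.sqrt n := by
        rcases Finset.mem_union.1 hb with hb | hb
        · have := h2 b hb
          omega
        · obtain ⟨c, hc, rfl⟩ := Finset.mem_image.1 hb
          rw [Finset.mem_range] at hc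
          omega
      rw [emb_edge x hab hbv]
      by_cases hbr : b < r
      · rw [if_pos hbr]
        have hb' : b ∈ T := by
          rcases Finset.mem_union.1 hb with hb | hb
          · exact hb
          · obtain ⟨c, _, rfl⟩ := Finset.mem_image.1 hb
            omega
        have ha' : a ∈ T := by
          rcases Finset.mem_union.1 ha with ha | ha
          · exact ha
          · obtain ⟨c, _, rfl⟩ := Finset.mem_image.1 ha
            omega
        exact h3 a ha' b hb' hab
      · rw [if_neg hbr]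
        rcases Finset.mem_union.1 hb with hb | hb
        · exact absurd (h2 b hb) hbr
        · obtain ⟨c, hc, rfl⟩ := Finset.mem_image.1 hb
          rw [Finset.mem_range] at hc
          simp
          omega

/-- the positions of the padding clique -/
def padC (n r h : ℕ) : Finset (Fin n) := Finset.univ.filter fun p =>
  p.val / Nat.sqrt n < p.val % Nat.sqrt n ∧ r ≤ p.val % Nat.sqrt n ∧ p.val % Nat.sqrt n < r + h

/-- the unused positions -/
def unused (n : ℕ) : Finset (Fin n) := Finset.univ.filter fun p =>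
  ¬ p.val / Nat.sqrt n < p.val % Nat.sqrt n

theorem card_pairs_le {n M : ℕ} (T : Finset (Fin n))
    (h : ∀ p ∈ T, p.val / Nat.sqrt n < M ∧ p.val % Nat.sqrt n < M) : T.card ≤ M * M := by
  have h1 : T.card ≤ (Finset.range M ×ˢ Finset.range M).card := by
    refine Finset.card_le_card_of_injOn
      (fun p => (p.val / Nat.sqrt n, p.val % Nat.sqrt n)) (fun p hp => ?_) (fun p _ q _ hpq => ?_)
    · have := h p hp
      simp only [Finset.coe_product, Set.mem_prod, Finset.mem_coe, Finset.mem_range]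
      exact this
    · simp only [Prod.mk.injEq] at hpq
      apply Fin.ext
      rw [← Nat.div_add_mod p.val (Nat.sqrt n), ← Nat.div_add_mod q.val (Nat.sqrt n), hpq.1, hpq.2]
  simpa using h1

theorem padC_card (n r h : ℕ) : (padC n r h).card ≤ (r + h) * (r + h) := by
  refine card_pairs_le _ (fun p hp => ?_)
  unfold padC at hp
  rw [Finset.mem_filter] at hp
  omega

theorem unused_card (n : ℕ) : n ≤ 2 * (unused n).card := by
  have hv0 : ∀ p : Fin n, p.val / Nat.sqrt n < p.val % Nat.sqrt n → 0 < Nat.sqrt n := by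
    intro p hp
    rcases Nat.eq_zero_or_pos (Nat.sqrt n) with h | h
    · have := Nat.sqrt_eq_zero.1 h
      have := p.isLt
      omega
    · exact h
  have h1 : (Finset.univ.filter fun p : Fin n => p.val / Nat.sqrt n < p.val % Nat.sqrt n).card ≤
      (unused n).card := by
    have key : ∀ p : Fin n, p.val / Nat.sqrt n < p.val % Nat.sqrt n →
        (p.val % Nat.sqrt n) * Nat.sqrt n + p.val / Nat.sqrt n < n := by
      intro p hp
      have h2 := Nat.mod_lt p.val (hv0 p hp)
      have h3 : (p.val % Nat.sqrt n + 1) * Nat.sqrt n ≤ Nat.sqrt n * Nat.sqrt n :=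
        Nat.mul_le_mul_right _ (by omega)
      have h4 := Nat.sqrt_le n
      rw [Nat.add_mul, one_mul] at h3
      omega
    refine Finset.card_le_card_of_injOn (fun p => if hp : p.val / Nat.sqrt n < p.val % Nat.sqrt n
      then ⟨(p.val % Nat.sqrt n) * Nat.sqrt n + p.val / Nat.sqrt n, key p hp⟩ else p)
      (fun p hp => ?_) (fun p hp q hq hpq => ?_)
    · have hp' : p.val / Nat.sqrt n < p.val % Nat.sqrt n := by simpa using hp
      have hv := hv0 p hp'
      have h2 := Nat.mod_lt p.val hv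
      unfold unused
      simp only [dif_pos hp', Finset.coe_filter, Finset.mem_univ, true_and, Set.mem_ofPred_eq]
      rw [mul_comm, Nat.mul_add_div hv, Nat.mul_add_mod, Nat.div_eq_of_lt (by omega),
        Nat.mod_eq_of_lt (by omega : p.val / Nat.sqrt n < Nat.sqrt n)]
      omega
    · have hp' : p.val / Nat.sqrt n < p.val % Nat.sqrt n := by simpa using hp
      have hq' : q.val / Nat.sqrt n < q.val % Nat.sqrt n := by simpa using hq
      have hv := hv0 p hp'
      have h2 := Nat.mod_lt p.val hv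
      have h3 := Nat.mod_lt q.val hv
      simp only [dif_pos hp', dif_pos hq', Fin.mk.injEq] at hpq
      have e1 : (p.val % Nat.sqrt n * Nat.sqrt n + p.val / Nat.sqrt n) / Nat.sqrt n =
          p.val % Nat.sqrt n := by
        rw [mul_comm, Nat.mul_add_div hv, Nat.div_eq_of_lt (by omega), add_zero]
      have e2 : (q.val % Nat.sqrt n * Nat.sqrt n + q.val / Nat.sqrt n) / Nat.sqrt n =
          q.val % Nat.sqrt n := by
        rw [mul_comm, Nat.mul_add_div hv, Nat.div_eq_of_lt (by omega), add_zero]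
      have e3 : p.val % Nat.sqrt n = q.val % Nat.sqrt n := by rw [← e1, ← e2, hpq]
      have e4 : p.val / Nat.sqrt n = q.val / Nat.sqrt n := by
        rw [e3] at hpq
        omega
      apply Fin.ext
      rw [← Nat.div_add_mod p.val (Nat.sqrt n), ← Nat.div_add_mod q.val (Nat.sqrt n), e3, e4]
  have h2 := Finset.card_filter_add_card_filter_not (s := (Finset.univ : Finset (Fin n)))
    (fun p : Fin n => p.val / Nat.sqrt n < p.val % Nat.sqrt n)
  rw [Finset.card_univ, Fintype.card_fin] at h2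
  unfold unused at h1 ⊢
  omega

theorem wt_emb_ge {n r h : ℕ} {S : Finset (Fin n)} (hS : S ⊆ unused n) (x : Fin (r * r) → Bool) :
    (padC n r h).card + S.card ≤ wt (emb n r h S x) := by
  have hd : Disjoint (padC n r h) S := by
    rw [Finset.disjoint_left]
    intro p hp hpS
    have h1 := hS hpS
    unfold padC at hp
    unfold unused at h1
    rw [Finset.mem_filter] at hp h1
    exact h1.2 hp.2.1
  rw [← Finset.card_union_of_disjoint hd]
  refine Finset.card_le_card (fun p hp => ?_)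
  rw [Finset.mem_filter]
  refine ⟨Finset.mem_univ _, ?_⟩
  unfold emb
  rcases Finset.mem_union.1 hp with hp | hp
  · unfold padC at hp
    rw [Finset.mem_filter] at hp
    rw [if_pos hp.2.1, if_neg (by omega)]
    simpa using hp.2.2.2
  · have h1 := hS hp
    unfold unused at h1
    rw [Finset.mem_filter] at h1
    rw [if_neg h1.2]
    simpa using hp

theorem wt_emb_le {n r h : ℕ} {S : Finset (Fin n)} (x : Fin (r * r) → Bool) :
    wt (emb n r h S x) ≤ r * r + ((padC n r h).card + S.card) := by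
  have h0 : (Finset.univ.filter fun p : Fin n => p.val / Nat.sqrt n < p.val % Nat.sqrt n ∧
      p.val % Nat.sqrt n < r).card ≤ r * r := by
    refine card_pairs_le _ (fun p hp => ?_)
    rw [Finset.mem_filter] at hp
    omega
  refine le_trans (Finset.card_le_card (t := (Finset.univ.filter fun p : Fin n =>
    p.val / Nat.sqrt n < p.val % Nat.sqrt n ∧ p.val % Nat.sqrt n < r) ∪ (padC n r h ∪ S))
    (fun p hp => ?_)) ((Finset.card_union_le _ _).trans
      (Nat.add_le_add h0 (Finset.card_union_le _ _)))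
  rw [Finset.mem_filter] at hp
  have hp2 := hp.2
  unfold emb at hp2
  rw [Finset.mem_union, Finset.mem_union, Finset.mem_filter]
  by_cases hU : p.val / Nat.sqrt n < p.val % Nat.sqrt n
  · by_cases hr : p.val % Nat.sqrt n < r
    · exact Or.inl ⟨Finset.mem_univ _, hU, hr⟩
    · rw [if_pos hU, if_neg hr] at hp2
      refine Or.inr (Or.inl ?_)
      unfold padC
      rw [Finset.mem_filter]
      exact ⟨Finset.mem_univ _, hU, by omega, by simpa using hp2⟩
  · rw [if_neg hU] at hp2
    exact Or.inr (Or.inr (by simpa using hp2))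

/-- **Reduction.** A circuit that decides `HalfClique` on a window of slices gives a circuit for a
small half-clique problem. -/
theorem window_red {n m W r : ℕ} (C : Circuit n) (hm1 : 2 * n ≤ 5 * m) (hm2 : 2 * m ≤ n)
    (hC : ∀ x : Fin n → Bool, m ≤ wt x → wt x < m + W →
      (C.eval x = true ↔ List.ofFn x ∈ HalfClique))
    (hr : Even r) (hr2 : 2 ≤ r) (hrW : r * r < W) (hrn : 100 * (r * r) ≤ n) (hn : 1000 ≤ n) :
    ∃ D : Circuit (r * r), D.nots ≤ C.nots ∧ D.size ≤ C.size ∧
      ∀ x, D.eval x = true ↔ List.ofFn x ∈ HalfClique := by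
  obtain ⟨v, hv⟩ : ∃ v, v = Nat.sqrt n := ⟨_, rfl⟩
  have hvn : v * v ≤ n := by rw [hv]; exact Nat.sqrt_le n
  have hvn' : n < (v + 1) * (v + 1) := by rw [hv]; exact Nat.lt_succ_sqrt n
  have hv31 : 31 ≤ v := by
    by_contra hcon
    have : (v + 1) * (v + 1) ≤ 31 * 31 := Nat.mul_le_mul (by omega) (by omega)
    omega
  have h10 : 10 * r ≤ v := by
    by_contra hcon
    have h1 : (v + 1) * (v + 1) ≤ (10 * r) * (10 * r) := Nat.mul_le_mul (by omega) (by omega)
    have h2 : (10 * r) * (10 * r) = 100 * (r * r) := by ring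
    omega
  obtain ⟨h, hh⟩ : ∃ h, h = (v - r + 1) / 2 := ⟨_, rfl⟩
  have h20 : 20 * (r + h) ≤ 11 * v + 10 := by omega
  have hpad : (padC n r h).card ≤ m := by
    have h1 := padC_card n r h
    have h2 : (20 * (r + h)) * (20 * (r + h)) ≤ (11 * v + 10) * (11 * v + 10) :=
      Nat.mul_le_mul h20 h20
    have h3 : (11 * v + 10) * (11 * v + 10) ≤ 160 * (v * v) := by nlinarith
    have h4 : (20 * (r + h)) * (20 * (r + h)) = 400 * ((r + h) * (r + h)) := by ring
    omega
  obtain ⟨S, hS, hScard⟩ := Finset.exists_subset_card_eq (s := unused n)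
    (n := m - (padC n r h).card) (by
      have := unused_card n
      omega)
  have hcs := Cs.comp (B := Inp n) (B' := Inp (r * r)) (emb n r h S)
    (Cs.base (Set.empty_subset (Inp (r * r)))) (by
      rintro b (⟨p, rfl⟩ | ⟨c, rfl⟩)
      · exact Or.inr (emb_inp n r h S p)
      · exact Or.inr (Or.inr ⟨c, rfl⟩)) C.cs
  have hcs' : Cs (Inp (r * r)) (C.size - C.nots) C.nots {C.eval ∘ emb n r h S} :=
    hcs.mono (by omega) (by omega) (by
      rintro f rfl
      exact Or.inr ⟨_, rfl, rfl⟩)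
  obtain ⟨D, h1, h2, h3, -⟩ := hcs'.circuit
  refine ⟨D, h2, by have := C.nots_le; omega, fun x => ?_⟩
  rw [h3]
  have h5 := wt_emb_ge (h := h) hS x
  have h6 := wt_emb_le (h := h) (S := S) x
  have h7 := hC (emb n r h S x) (by omega) (by omega)
  rw [Function.comp_apply, h7]
  exact emb_half x hr (by rw [← hv]; exact hh) (by rw [← hv]; omega) hr2

/-! ### arithmetic -/

theorem arithW (B K l u d : ℕ) (hK : 0 < K) (hl : 1 ≤ l) (h2d : 2 * d = K * (l + 1))
    (hB : B = 2 ^ 13) (h4 : (B * K * u) ^ 16 ≤ 2 * d) :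
    2 ^ 180 * u ^ 16 * (2 * d) ^ 8 ≤ l ^ 9 := by
  have e0 : 2 ^ 180 * 2 ^ 9 ≤ B ^ 16 := by rw [hB]; norm_num
  have e2 : K * (B ^ 16 * K ^ 15 * u ^ 16) ≤ K * (l + 1) := by
    calc K * (B ^ 16 * K ^ 15 * u ^ 16) = (B * K * u) ^ 16 := by ring
      _ ≤ 2 * d := h4
      _ = K * (l + 1) := h2d
  have e3 : B ^ 16 * K ^ 15 * u ^ 16 ≤ l + 1 := Nat.le_of_mul_le_mul_left e2 hK
  have e1 : 2 ^ 9 * (2 ^ 180 * u ^ 16 * (2 * d) ^ 8) ≤ 2 ^ 9 * l ^ 9 := by
    calc 2 ^ 9 * (2 ^ 180 * u ^ 16 * (2 * d) ^ 8)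
        = (2 ^ 180 * 2 ^ 9) * K ^ 8 * u ^ 16 * (l + 1) ^ 8 := by rw [h2d]; ring
      _ ≤ B ^ 16 * K ^ 8 * u ^ 16 * (l + 1) ^ 8 :=
          Nat.mul_le_mul_right _ (Nat.mul_le_mul_right _ (Nat.mul_le_mul_right _ e0))
      _ ≤ B ^ 16 * K ^ 15 * u ^ 16 * (l + 1) ^ 8 :=
          Nat.mul_le_mul_right _ (Nat.mul_le_mul_right _ (Nat.mul_le_mul_left _
            (Nat.pow_le_pow_right hK (by norm_num))))
      _ ≤ (l + 1) * (l + 1) ^ 8 := Nat.mul_le_mul_right _ e3
      _ = (l + 1) ^ 9 := by ring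
      _ ≤ (2 * l) ^ 9 := Nat.pow_le_pow_left (by omega) 9
      _ = 2 ^ 9 * l ^ 9 := by ring
  exact Nat.le_of_mul_le_mul_left e1 (by norm_num)

theorem arith_r (W : ℕ) (hW : 20 ≤ W) :
    ∃ r, Even r ∧ 2 ≤ r ∧ r * r < W ∧ W ≤ 4 * (r * r) := by
  obtain ⟨q, hq⟩ : ∃ q, q = Nat.sqrt (W - 1) := ⟨_, rfl⟩
  have h1 : q * q ≤ W - 1 := by rw [hq]; exact Nat.sqrt_le _
  have h2 : W - 1 < (q + 1) * (q + 1) := by rw [hq]; exact Nat.lt_succ_sqrt _
  have h3 : 4 ≤ q := by
    by_contra hcon
    have : (q + 1) * (q + 1) ≤ 4 * 4 := Nat.mul_le_mul (by omega) (by omega)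
    omega
  refine ⟨2 * (q / 2), even_two_mul _, by omega, ?_, ?_⟩
  · have : 2 * (q / 2) * (2 * (q / 2)) ≤ q * q := Nat.mul_le_mul (by omega) (by omega)
    omega
  · have h4 : (q + 1) * (q + 1) ≤ (2 * (2 * (q / 2))) * (2 * (2 * (q / 2))) :=
      Nat.mul_le_mul (by omega) (by omega)
    have h5 : (2 * (2 * (q / 2))) * (2 * (2 * (q / 2))) = 4 * (2 * (q / 2) * (2 * (q / 2))) := by
      ring
    omega

/-- **The lower bound for windows.** -/
theorem lower_window (a : ℕ) : ∃ n₀, ∀ n ≥ n₀, ∀ t m,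
    100 * (2 ^ t * Nat.log 2 n ^ 9) ≤ n → 2 * n ≤ 5 * m → 2 * m ≤ n →
    ∀ C : Circuit n, C.nots ≤ t → (∀ x, m ≤ wt x → wt x < m + 2 ^ t * Nat.log 2 n ^ 9 →
      (C.eval x = true ↔ List.ofFn x ∈ HalfClique)) → n ^ a < C.size := by
  obtain ⟨B, hB⟩ : ∃ B : ℕ, B = 2 ^ 13 := ⟨_, rfl⟩
  obtain ⟨K, hK⟩ : ∃ K : ℕ, K = 2 * (a + 2) := ⟨_, rfl⟩
  obtain ⟨Y, hY⟩ := Filter.eventually_atTop.1 (log_pow_le (B * K) 16)
  obtain ⟨n₀, hn₀⟩ := Filter.eventually_atTop.1
    (tendsto_log.eventually (Filter.eventually_ge_atTop (max Y 2)))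
  refine ⟨max n₀ 1000, fun n hn t m h1 hm1 hm2 C hCt hC => ?_⟩
  by_contra hcon
  push Not at hcon
  have h2 := hn₀ n ((le_max_left _ _).trans hn)
  obtain ⟨l, hl⟩ : ∃ l, l = Nat.log 2 n := ⟨_, rfl⟩
  rw [← hl] at h1 h2 hC
  have hl2 : 2 ≤ l := (le_max_right _ _).trans h2
  obtain ⟨d, hd⟩ : ∃ d, d = (a + 2) * (l + 1) := ⟨_, rfl⟩
  have h2d : 2 * d = K * (l + 1) := by rw [hd, hK]; ring
  have hd2 : 2 ≤ d := by rw [hd]; nlinarith
  obtain ⟨u, hu⟩ : ∃ u, u = Nat.log 2 (2 * d) + 1 := ⟨_, rfl⟩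
  have e1 : n < 2 ^ (l + 1) := by rw [hl]; exact Nat.lt_pow_succ_log_self (by norm_num) n
  have h4 := hY (2 * d) (by
    calc Y ≤ l := (le_max_left _ _).trans h2
      _ ≤ 2 * d := by rw [hd]; nlinarith)
  rw [← hu] at h4
  have h5 : 2 ^ 180 * u ^ 16 * (2 * d) ^ 8 ≤ l ^ 9 :=
    arithW B K l u d (by omega) (by omega) h2d hB h4
  obtain ⟨W, hW⟩ : ∃ W, W = 2 ^ t * l ^ 9 := ⟨_, rfl⟩
  rw [← hW] at h1 hC
  have h2t : 1 ≤ 2 ^ t := Nat.one_le_two_pow
  have hWl : l ^ 9 ≤ W := by rw [hW]; exact Nat.le_mul_of_pos_left _ h2t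
  have hW20 : 20 ≤ W := by
    have : 2 ^ 9 ≤ l ^ 9 := Nat.pow_le_pow_left hl2 9
    omega
  obtain ⟨r, hr1, hr2, hr3, hr4⟩ := arith_r W hW20
  obtain ⟨D, g1, g2, g3⟩ := window_red C hm1 hm2 hC hr1 hr2 hr3 (by omega)
    ((le_max_right _ _).trans hn)
  have k2 : 8 * D.size ≤ 4 ^ d := by
    rw [hd]; exact arith3 n a l D.size e1 (g2.trans hcon)
  have hupos : 1 ≤ u := by omega
  have h2dpos : 1 ≤ 2 * d := by omega
  have k1 : 2 ^ 176 * u ^ 16 * (2 * d) ^ 8 ≤ r * r := by
    have e2 : 4 * (2 ^ 176 * u ^ 16 * (2 * d) ^ 8) ≤ 2 ^ 180 * u ^ 16 * (2 * d) ^ 8 := by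
      calc 4 * (2 ^ 176 * u ^ 16 * (2 * d) ^ 8) = (4 * 2 ^ 176) * (u ^ 16 * (2 * d) ^ 8) := by ring
        _ ≤ 2 ^ 180 * (u ^ 16 * (2 * d) ^ 8) := Nat.mul_le_mul_right _ (by norm_num)
        _ = _ := by ring
    have e3 : 4 * (2 ^ 176 * u ^ 16 * (2 * d) ^ 8) ≤ 4 * (r * r) :=
      e2.trans (h5.trans (hWl.trans hr4))
    exact Nat.le_of_mul_le_mul_left e3 (by norm_num)
  have h3 := lower D g3 d hd2 (by rw [← hu]; exact k1) k2
  rw [← hu] at h3
  have hpos : 0 < 2 ^ 51 * u ^ 4 * (2 * d) ^ 2 := by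
    have : 0 < u := by omega
    have : 0 < 2 * d := by omega
    positivity
  rw [Nat.div_lt_iff_lt_mul hpos] at h3
  have e4 : 2 ^ D.nots ≤ 2 ^ t := Nat.pow_le_pow_right (by norm_num) (g1.trans hCt)
  have e5 : 2 * 2 ^ D.nots * (2 ^ 51 * u ^ 4 * (2 * d) ^ 2) ≤
      2 ^ t * (2 ^ 52 * u ^ 4 * (2 * d) ^ 2) := by
    calc 2 * 2 ^ D.nots * (2 ^ 51 * u ^ 4 * (2 * d) ^ 2)
        = 2 ^ D.nots * (2 ^ 52 * u ^ 4 * (2 * d) ^ 2) := by ring
      _ ≤ _ := Nat.mul_le_mul_right _ e4
  have e6 : 4 * (2 ^ 52 * u ^ 4 * (2 * d) ^ 2) ≤ l ^ 9 := by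
    refine le_trans ?_ h5
    calc 4 * (2 ^ 52 * u ^ 4 * (2 * d) ^ 2) = (4 * 2 ^ 52) * (u ^ 4 * (2 * d) ^ 2) := by ring
      _ ≤ 2 ^ 180 * (u ^ 16 * (2 * d) ^ 8) := by
          refine Nat.mul_le_mul (by norm_num) (Nat.mul_le_mul ?_ ?_)
          · exact Nat.pow_le_pow_right hupos (by norm_num)
          · exact Nat.pow_le_pow_right h2dpos (by norm_num)
      _ = _ := by ring
  have e7 : 4 * (r * r) < 4 * (r * r) := by
    calc 4 * (r * r) < 4 * (2 * 2 ^ D.nots * (2 ^ 51 * u ^ 4 * (2 * d) ^ 2)) := by omega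
      _ ≤ 4 * (2 ^ t * (2 ^ 52 * u ^ 4 * (2 * d) ^ 2)) := Nat.mul_le_mul_left _ e5
      _ = 2 ^ t * (4 * (2 ^ 52 * u ^ 4 * (2 * d) ^ 2)) := by ring
      _ ≤ 2 ^ t * l ^ 9 := Nat.mul_le_mul_left _ e6
      _ = W := hW.symm
      _ ≤ 4 * (r * r) := hr4
  omega

end Pool.Agent.W954.Sav
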