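import Pool.Agent.W954.Sav.Search
import Pool.Agent.W954.Sav.Circ
import Pool.Agent.H520R2.HalfClique

/-!
# Circuits are evaluated and checked in polynomial time
-/

set_option autoImplicit false

namespace Pool.Agent.W954.Sav

open Pool.Agent.NPC

theorem poly_gval : Poly (fun p : List Bool × Gate => gval p.1 p.2) := by
  unfold gval
  fun_prop

theorem sz_values (gates : List Gate) (x : List Bool) :
    sz (values gates x) ≤ 4 * (x.length + 2 + gates.length) + 1 := by
  rw [← length_values]
  exact sz_listBool_le _

theorem poly_values {α : Type} [TEnc α] {C : α → List Gate} {x : α → List Bool} (hC : Poly C)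
    (hx : Poly x) : Poly (fun a => values (C a) (x a)) := by
  unfold values
  obtain ⟨p, hp⟩ := hC.sz_le
  obtain ⟨q, hq⟩ := hx.sz_le
  refine Poly.foldl (F := fun _ v (g : Gate) => v ++ [gval v g]) (s := fun a => false :: true :: x a)
    hC (by fun_prop) ?_ (Polynomial.C 4 * (q + 2 + p) + 1) ?_
  · refine Poly.append (Poly.fst (Poly.snd Poly.id)) (Poly.cons ?_ (NPC.Poly.const _))
    exact poly_gval.comp (Poly.pair (Poly.fst (Poly.snd Poly.id)) (Poly.snd (Poly.snd Poly.id)))
  · intro a k _
    have h1 := sz_values ((C a).take k) (x a)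
    unfold values at h1
    have h2 : ((C a).take k).length ≤ (C a).length := by simp
    have h3 := length_lt_sz (C a)
    have h3' := length_lt_sz (x a)
    have h4 := hp a
    have h5 := hq a
    simp only [Polynomial.eval_add, Polynomial.eval_mul, Polynomial.eval_C, Polynomial.eval_one,
      Polynomial.eval_ofNat]
    omega

/-- evaluation of a described circuit -/
def evalD (D : List Gate × ℕ) (x : List Bool) : Bool := (values D.1 x).getD D.2 false

theorem poly_evalD {α : Type} [TEnc α] {D : α → List Gate × ℕ} {x : α → List Bool} (hD : Poly D)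
    (hx : Poly x) : Poly (fun a => evalD (D a) (x a)) :=
  Poly.getD (poly_values (Poly.fst hD) hx) (Poly.snd hD) (NPC.Poly.const _)

/-- well-formedness test -/
def wfT (n : ℕ) (D : List Gate × ℕ) : Bool :=
  (D.1.zipIdx.all fun g => decide (g.1.2.1 < n + 2 + g.2) && decide (g.1.2.2 < n + 2 + g.2)) &&
    decide (D.2 < n + 2 + D.1.length)

theorem wfT_iff (n : ℕ) (D : List Gate × ℕ) :
    wfT n D = true ↔ WF n D.1 ∧ D.2 < n + 2 + D.1.length := by
  unfold wfT WF
  rw [Bool.and_eq_true, decide_eq_true_iff, List.all_eq_true]
  refine and_congr_left fun _ => ?_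
  constructor
  · intro h k g hk
    have h1 := h (g, k) (List.mem_zipIdx_iff_getElem?.2 hk)
    simpa using h1
  · rintro h ⟨g, k⟩ hg
    have h1 := h k g (List.mem_zipIdx_iff_getElem?.1 hg)
    simpa using h1

theorem poly_wfT : Poly (fun p : ℕ × (List Gate × ℕ) => wfT p.1 p.2) := by
  unfold wfT
  fun_prop

/-- the number of ones -/
def ones (x : List Bool) : ℕ := (x.filter fun b => b).length

theorem ones_ofFn {n : ℕ} (x : Fin n → Bool) : ones (List.ofFn x) = wt x := by
  have h1 : (Finset.univ.filter fun i => x i = true) =
      ((List.finRange n).filter (fun i => x i)).toFinset := by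
    ext i
    simp
  unfold ones wt
  rw [h1, List.toFinset_card_of_nodup ((List.nodup_finRange n).filter _), List.ofFn_eq_map,
    List.filter_map, List.length_map]
  rfl

theorem poly_ones {α : Type} [TEnc α] {x : α → List Bool} (hx : Poly x) :
    Poly (fun a => ones (x a)) := by
  unfold ones
  fun_prop

theorem two_pow_eq (t : ℕ) : 2 ^ t = valB (List.replicate t false ++ [true]) := by
  rw [valB_replicate_false]
  simp

end Pool.Agent.W954.Sav
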