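import Pool.Agent.W954.Sav.Unif
import Pool.Agent.W954.Sav.Emb

/-!
# `P = NP` and circuits with few NOT gates: the equivalences
-/

set_option autoImplicit false

namespace Pool.Agent.W954.Sav

open Pool.Agent.NPC Pool.Agent.H520R2.HC

theorem MonoLang.lf {L : Set (List Bool)} (h : MonoLang L) (n : ℕ) : Monotone (lf L n) := by
  intro x y hxy
  rw [Bool.le_iff_imp]
  intro h1
  rw [lf_iff] at h1 ⊢
  exact h n x y hxy h1

theorem inP_of_uniform {L : Set (List Bool)} {F : List Bool → List Bool} (hF : PolyTime F)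
    {u : List Bool → List Bool} (hu : Poly u)
    (h : ∀ x : List Bool, ∃ C : Circuit x.length, F (u x) = C.desc ∧
      (C.eval x.get = true ↔ x ∈ L)) : InP L := by
  refine ⟨fun x => [(unbits (List Gate × ℕ) (F (u x))).elim false fun D => evalD D x],
    polyTime_of_poly ?_, fun x => ?_⟩
  · refine NPC.Poly.optElim (h := fun (x : List Bool) (D : List Gate × ℕ) => evalD D x) ?_
      (NPC.Poly.const _) (poly_evalD (Poly.snd Poly.id) (Poly.fst Poly.id))
    exact poly_unbits.comp ((H622R2.poly_of_polyTime hF).comp hu)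
  · obtain ⟨C, h1, h2⟩ := h x
    have h3 : unbits (List Gate × ℕ) (F (u x)) = some (C.gates, C.out) := by
      rw [h1]; exact unbits_bits _
    simp only [h3, Option.elim_some, List.cons.injEq, and_true]
    rw [← h2]
    unfold evalD Circuit.eval
    rw [List.ofFn_get]

theorem size_eq_clog (n : ℕ) : n.size = Nat.clog 2 (n + 1) := by
  apply le_antisymm
  · rw [Nat.size_le]
    have := Nat.le_pow_clog (b := 2) (by norm_num) (n + 1)
    omega
  · rw [Nat.clog_le_iff_le_pow (by norm_num)]
    exact Nat.lt_size_self n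

theorem upoly_clog (c : ℕ) : UPoly (fun x : List Bool => Nat.clog 2 (x.length + 1) - c) := by
  have h1 : Poly (fun x : List Bool => (x.length.bits).length - c) :=
    Poly.sub (Poly.length (Poly.natBits (Poly.length Poly.id))) (NPC.Poly.const _)
  refine UPoly.of_le (h1.congr fun x => ?_) (UPoly.length Poly.id) (fun x => ?_)
  · rw [← size_eq_clog, Nat.size_eq_bits_len]
  · rw [← size_eq_clog]
    exact (Nat.sub_le _ _).trans (nat_size_le _)

theorem wt_lt_all (n c : ℕ) (x : Fin n → Bool) :
    wt x < 0 + ((2 ^ c - 1) + 1) * 2 ^ (Nat.clog 2 (n + 1) - c) := by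
  have h1 := wt_le x
  have h2 := Nat.le_pow_clog (b := 2) (by norm_num) (n + 1)
  have h3 : 1 ≤ 2 ^ c := Nat.one_le_two_pow
  rw [Nat.sub_add_cancel h3, ← pow_add, zero_add]
  have h4 : 2 ^ Nat.clog 2 (n + 1) ≤ 2 ^ (c + (Nat.clog 2 (n + 1) - c)) :=
    Nat.pow_le_pow_right (by norm_num) (by omega)
  omega

theorem tfae {L : Set (List Bool)} (hNP : InNP L) (hH : NPHard L) (hm : MonoLang L) (k c : ℕ) :
    List.TFAE [
      ∀ L', InNP L' → InP L',
      ∃ F : List Bool → List Bool, PolyTime F ∧ ∀ n m, ∃ C : Circuit n,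
        F (bits (List.replicate n (), List.replicate m ())) = C.desc ∧ C.nots = 0 ∧
        ∀ x, m ≤ wt x → wt x ≤ m + k → (C.eval x = true ↔ List.ofFn x ∈ L),
      ∃ F : List Bool → List Bool, PolyTime F ∧ ∀ n m t, ∃ C : Circuit n,
        F (bits (List.replicate n (), List.replicate m (), List.replicate t ())) = C.desc ∧
        C.nots ≤ t ∧
        ∀ x, m ≤ wt x → wt x < m + (k + 1) * 2 ^ t → (C.eval x = true ↔ List.ofFn x ∈ L),
      ∃ F : List Bool → List Bool, PolyTime F ∧ ∀ n, ∃ C : Circuit n,
        F (List.replicate n true) = C.desc ∧ C.nots ≤ Nat.clog 2 (n + 1) - c ∧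
        ∀ x, C.eval x = true ↔ List.ofFn x ∈ L] := by
  tfae_have 1 → 3 := by
    intro h
    obtain ⟨F, hF, h1⟩ := uniform_windows h (h L hNP) hm.lf k
    refine ⟨fun y => (unbits Idx y).elim [] fun i => F i, ?_, fun n m t => ?_⟩
    · refine H622R2.polyTime_of_poly_list (NPC.Poly.optElim (h := fun (_ : List Bool) i => F i)
        poly_unbits (NPC.Poly.const _) (hF.comp (Poly.snd Poly.id)))
    · obtain ⟨C, h2, h3, h4⟩ := h1 n m t
      refine ⟨C, ?_, h3, h4⟩
      have h5 : unbits Idx (bits (List.replicate n (), List.replicate m (),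
          List.replicate t ())) = some (List.replicate n (), List.replicate m (),
          List.replicate t ()) := unbits_bits _
      simp only [h5, Option.elim_some]
      exact h2
  tfae_have 3 → 2 := by
    rintro ⟨F, hF, h1⟩
    refine ⟨fun y => F ((unbits (List Unit × List Unit) y).elim []
      fun i => bits (i.1, i.2, ([] : List Unit))), ?_, fun n m => ?_⟩
    · refine H622R2.polyTime_of_poly_list ((H622R2.poly_of_polyTime hF).comp
        (NPC.Poly.optElim (h := fun (_ : List Bool) (i : List Unit × List Unit) =>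
          bits (i.1, i.2, ([] : List Unit))) poly_unbits (NPC.Poly.const _)
          (poly_bits (by fun_prop))))
    · obtain ⟨C, h2, h3, h4⟩ := h1 n m 0
      refine ⟨C, ?_, by omega, fun x hx1 hx2 => h4 x hx1 (by omega)⟩
      have h5 : unbits (List Unit × List Unit) (bits (List.replicate n (),
          List.replicate m ())) = some (List.replicate n (), List.replicate m ()) :=
        unbits_bits _
      simp only [h5, Option.elim_some]
      exact h2
  tfae_have 2 → 1 := by
    rintro ⟨F, hF, h1⟩ L' hL'
    refine InP.of_reduces (hH L' hL') ?_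
    refine inP_of_uniform hF (u := fun x => bits (x.map (fun _ => ()),
      List.replicate (ones x) ())) (poly_bits (Poly.pair (by fun_prop) ?_)) (fun x => ?_)
    · exact UPoly.of_le (poly_ones Poly.id) (UPoly.length Poly.id)
        (fun x => List.length_filter_le _ _)
    · obtain ⟨C, h2, h3, h4⟩ := h1 x.length (ones x)
      refine ⟨C, ?_, ?_⟩
      · rw [← h2, List.map_const']
      · have h5 := ones_ofFn x.get
        rw [List.ofFn_get] at h5
        have h6 := h4 x.get (by omega) (by omega)
        rw [List.ofFn_get] at h6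
        exact h6
  tfae_have 1 → 4 := by
    intro h
    obtain ⟨F, hF, h1⟩ := uniform_windows h (h L hNP) hm.lf (2 ^ c - 1)
    refine ⟨fun x => F (x.map (fun _ => ()), [],
      List.replicate (Nat.clog 2 (x.length + 1) - c) ()), ?_, fun n => ?_⟩
    · refine H622R2.polyTime_of_poly_list (hF.comp (Poly.pair (by fun_prop)
        (Poly.pair (NPC.Poly.const _) (upoly_clog c))))
    · obtain ⟨C, h2, h3, h4⟩ := h1 n 0 (Nat.clog 2 (n + 1) - c)
      refine ⟨C, ?_, h3, fun x => h4 x (Nat.zero_le _) (wt_lt_all n c x)⟩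
      rw [← h2]
      simp
  tfae_have 4 → 1 := by
    rintro ⟨F, hF, h1⟩ L' hL'
    refine InP.of_reduces (hH L' hL') ?_
    refine inP_of_uniform hF (u := fun x => x.map (fun _ => true)) (by fun_prop) (fun x => ?_)
    obtain ⟨C, h2, h3, h4⟩ := h1 x.length
    refine ⟨C, ?_, ?_⟩
    · rw [← h2, List.map_const']
    · have h6 := h4 x.get
      rw [List.ofFn_get] at h6
      exact h6
  tfae_finish

theorem monoLang_halfClique : MonoLang HalfClique :=
  fun _ _ _ hxy hx => halfClique_mono hxy hx

end Pool.Agent.W954.Sav
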