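import Pool.Agent.W954.Sav.Circ
import Pool.Agent.H560R2.Av5

/-!
# The unconditional lower bound for the half-clique language
-/

set_option autoImplicit false

namespace Pool.Agent.W954.Sav

open Pool.Agent.H520R2.HC

abbrev NMC := Pool.Agent.H520R2.NM.Circuit
abbrev NMW := Pool.Agent.H520R2.NM.Wire

/-- lift of a wire -/
def liftW {ι : Type} {n : ℕ} (u : ℕ) : NMW ι n → NMW ι (n + u)
  | .input i => .input i
  | .const b => .const b
  | .gate j => .gate (Fin.castAdd u j)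

theorem slp_nm {N a t : ℕ} {l : List ((Fin N → Bool) → Bool)} (h : SLP (Inp N) a t l) :
    ∃ (n : ℕ) (C : NMC (Fin N) n), C.size = a ∧ C.fanins = List.replicate t 1 ∧
      ∀ f, f ∈ l ∨ f ∈ Inp N → ∃ w : NMW (Fin N) n, ∀ x, w.eval x (C.vals x) = f x := by
  have base : ∀ (n : ℕ) (C : NMC (Fin N) n) (f), f ∈ Inp N →
      ∃ w : NMW (Fin N) n, ∀ x, w.eval x (C.vals x) = f x := by
    rintro n C f (⟨i, rfl⟩ | ⟨b, rfl⟩)
    · exact ⟨.input i, fun x => rfl⟩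
    · exact ⟨.const b, fun x => rfl⟩
  induction h with
  | nil => exact ⟨0, .empty, rfl, rfl, fun f hf => base 0 .empty f (by simpa using hf)⟩
  | not a t l f h hf ih =>
    obtain ⟨n, C, h1, h2, h3⟩ := ih
    obtain ⟨w, hw⟩ := h3 f hf
    let C' : NMC (Fin N) (n + 1) := .any C 1 1 (fun z _ => !z 0) (fun _ => w)
    have hv : ∀ x, C'.vals x = Fin.append (C.vals x) (fun _ : Fin 1 => !f x) := by
      intro x
      show Fin.append (C.vals x) (fun _ : Fin 1 => !(w.eval x (C.vals x))) = _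
      rw [hw x]
    refine ⟨n + 1, C', h1, ?_, fun f' hf' => ?_⟩
    · show 1 :: C.fanins = _
      rw [h2, List.replicate_succ]
    · have old : (f' ∈ l ∨ f' ∈ Inp N) → ∃ w : NMW (Fin N) (n + 1), ∀ x,
          w.eval x (C'.vals x) = f' x := by
        intro h
        obtain ⟨w', hw'⟩ := h3 f' h
        refine ⟨liftW 1 w', fun x => ?_⟩
        rw [← hw' x, hv x]
        cases w' with
        | input i => rfl
        | const b => rfl
        | gate j => exact Fin.append_left _ _ j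
      rcases hf' with hf' | hf'
      · rcases List.mem_cons.1 hf' with rfl | hf'
        · refine ⟨.gate (Fin.natAdd n 0), fun x => ?_⟩
          rw [hv x]
          exact Fin.append_right _ _ 0
        · exact old (Or.inl hf')
      · exact old (Or.inr hf')
  | and a t l f g h hf hg ih =>
    obtain ⟨n, C, h1, h2, h3⟩ := ih
    obtain ⟨w, hw⟩ := h3 f hf
    obtain ⟨v, hv'⟩ := h3 g hg
    let C' : NMC (Fin N) (n + 1) := .and C w v
    have hv : ∀ x, C'.vals x = Fin.snoc (α := fun _ => Bool) (C.vals x) (f x && g x) := by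
      intro x
      show Fin.snoc (α := fun _ => Bool) (C.vals x)
        (w.eval x (C.vals x) && v.eval x (C.vals x)) = _
      rw [hw x, hv' x]
    refine ⟨n + 1, C', by show C.size + 1 = _; rw [h1], h2, fun f' hf' => ?_⟩
    have old : (f' ∈ l ∨ f' ∈ Inp N) → ∃ w : NMW (Fin N) (n + 1), ∀ x,
        w.eval x (C'.vals x) = f' x := by
      intro h
      obtain ⟨w', hw'⟩ := h3 f' h
      refine ⟨liftW 1 w', fun x => ?_⟩
      rw [← hw' x, hv x]
      cases w' with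
      | input i => rfl
      | const b => rfl
      | gate j => exact Fin.snoc_castSucc (α := fun _ => Bool) _ _ j
    rcases hf' with hf' | hf'
    · rcases List.mem_cons.1 hf' with rfl | hf'
      · refine ⟨.gate (Fin.last n), fun x => ?_⟩
        rw [hv x]
        exact Fin.snoc_last (α := fun _ => Bool) _ _
      · exact old (Or.inl hf')
    · exact old (Or.inr hf')
  | or a t l f g h hf hg ih =>
    obtain ⟨n, C, h1, h2, h3⟩ := ih
    obtain ⟨w, hw⟩ := h3 f hf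
    obtain ⟨v, hv'⟩ := h3 g hg
    let C' : NMC (Fin N) (n + 1) := .or C w v
    have hv : ∀ x, C'.vals x = Fin.snoc (α := fun _ => Bool) (C.vals x) (f x || g x) := by
      intro x
      show Fin.snoc (α := fun _ => Bool) (C.vals x)
        (w.eval x (C.vals x) || v.eval x (C.vals x)) = _
      rw [hw x, hv' x]
    refine ⟨n + 1, C', by show C.size + 1 = _; rw [h1], h2, fun f' hf' => ?_⟩
    have old : (f' ∈ l ∨ f' ∈ Inp N) → ∃ w : NMW (Fin N) (n + 1), ∀ x,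
        w.eval x (C'.vals x) = f' x := by
      intro h
      obtain ⟨w', hw'⟩ := h3 f' h
      refine ⟨liftW 1 w', fun x => ?_⟩
      rw [← hw' x, hv x]
      cases w' with
      | input i => rfl
      | const b => rfl
      | gate j => exact Fin.snoc_castSucc (α := fun _ => Bool) _ _ j
    rcases hf' with hf' | hf'
    · rcases List.mem_cons.1 hf' with rfl | hf'
      · refine ⟨.gate (Fin.last n), fun x => ?_⟩
        rw [hv x]
        exact Fin.snoc_last (α := fun _ => Bool) _ _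
      · exact old (Or.inl hf')
    · exact old (Or.inr hf')

/-- The lower bound, explicit form. -/
theorem lower {N : ℕ} (C : Circuit N)
    (hC : ∀ x, C.eval x = true ↔ List.ofFn x ∈ HalfClique) (d : ℕ) (hd : 2 ≤ d)
    (hN : 2 ^ 176 * (Nat.log 2 (2 * d) + 1) ^ 16 * (2 * d) ^ 8 ≤ N)
    (hsize : 8 * C.size ≤ 4 ^ d) :
    N / (2 ^ 51 * (Nat.log 2 (2 * d) + 1) ^ 4 * (2 * d) ^ 2) < 2 * 2 ^ C.nots := by
  by_contra hcon
  push Not at hcon
  obtain ⟨Λ, i1, i2, D, hD⟩ := Pool.Agent.H560R2.half_hard N d 2 (by omega) (by norm_num)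
    (le_trans (by norm_num) (Nat.pow_le_pow_right (show 0 < 4 by norm_num) hd)) hN
  obtain ⟨l, a, t, h1, h2, h3, h4⟩ := C.cs
  obtain ⟨n, C', g1, g2, g3⟩ := slp_nm h1
  obtain ⟨w, hw⟩ := g3 _ (h4 _ rfl)
  have hnots := C.nots_le
  have h5 := hD n C' w (by
    rw [g1, g2, List.sum_replicate, smul_eq_mul, mul_one]
    calc 4 * 2 * (a + t) ≤ 8 * C.size := by omega
      _ ≤ 4 ^ d := hsize) (by
    rw [g2, List.map_replicate, List.prod_replicate]
    refine le_trans (Nat.mul_le_mul_left _ (Nat.pow_le_pow_right (by norm_num) h3)) hcon)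
  have h6 : ∀ l, (Pool.Agent.H520R2.NM.Wire.eval (D l) (Pool.Agent.H520R2.NM.Circuit.vals C' (D l))
      w = true ↔ List.ofFn (D l) ∈ HalfClique) := fun l => by rw [hw]; exact hC (D l)
  have h7 := Finset.card_pos.2 (Finset.univ_nonempty (α := Λ))
  simp only [h6, Finset.filter_true, Finset.card_univ] at h5
  omega

/-- logarithms are small -/
theorem two_pow_ge (K e : ℕ) : ∀ᶠ l : ℕ in Filter.atTop, (K * (l + 1)) ^ e ≤ 2 ^ l := by
  have h1 := tendsto_pow_const_div_const_pow_of_one_lt e (show (1 : ℝ) < 2 by norm_num)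
  have h2 : ∀ᶠ l : ℕ in Filter.atTop, (l : ℝ) ^ e / 2 ^ l < 1 / ((2 * K : ℕ) ^ e + 1 : ℝ) :=
    h1.eventually_lt_const (by positivity)
  filter_upwards [h2, Filter.eventually_ge_atTop 1] with l h3 h4
  have h5 : (K * (l + 1)) ^ e ≤ (2 * K) ^ e * l ^ e := by
    rw [← mul_pow]
    refine Nat.pow_le_pow_left ?_ e
    nlinarith
  have h6 : ((2 * K : ℕ) : ℝ) ^ e * (l : ℝ) ^ e ≤ 2 ^ l := by
    rw [div_lt_div_iff₀ (by positivity) (by positivity)] at h3
    have h7 : (0 : ℝ) ≤ (l : ℝ) ^ e := by positivity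
    nlinarith
  have h7 : (((2 * K) ^ e * l ^ e : ℕ) : ℝ) ≤ ((2 ^ l : ℕ) : ℝ) := by
    push_cast
    push_cast at h6
    exact h6
  exact h5.trans (by exact_mod_cast h7)

theorem tendsto_log : Filter.Tendsto (Nat.log 2) Filter.atTop Filter.atTop := by
  refine Filter.tendsto_atTop.2 fun b => ?_
  filter_upwards [Filter.eventually_ge_atTop (2 ^ b)] with n hn
  exact Nat.le_log_of_pow_le (by norm_num) hn

theorem log_pow_le (K e : ℕ) : ∀ᶠ n : ℕ in Filter.atTop, (K * (Nat.log 2 n + 1)) ^ e ≤ n := by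
  filter_upwards [tendsto_log.eventually (two_pow_ge K e), Filter.eventually_ge_atTop 1] with n h2 h3
  exact h2.trans (Nat.pow_log_le_self 2 (by omega))

/-- arithmetic -/
theorem arith1 (A K l u d n : ℕ) (h2d : 2 * d = K * (l + 1)) (hlog : u ≤ 2 * d)
    (hA : A = 2 ^ 8) (h1 : (A * K * (l + 1)) ^ 24 ≤ n) :
    2 ^ 176 * u ^ 16 * (2 * d) ^ 8 ≤ n := by
  have e0 : 2 ^ 176 ≤ A ^ 24 := by rw [hA]; norm_num
  calc 2 ^ 176 * u ^ 16 * (2 * d) ^ 8
      ≤ A ^ 24 * (2 * d) ^ 16 * (2 * d) ^ 8 :=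
        Nat.mul_le_mul_right _ (Nat.mul_le_mul e0 (Nat.pow_le_pow_left hlog 16))
    _ = (A * K * (l + 1)) ^ 24 := by rw [h2d]; ring
    _ ≤ n := h1

theorem arith2 (B K l u d : ℕ) (hK : 0 < K) (hl : 1 ≤ l) (h2d : 2 * d = K * (l + 1))
    (hB : B = 2 ^ 14) (h4 : (B * K * u) ^ 4 ≤ 2 * d) :
    2 ^ 52 * u ^ 4 * (2 * d) ^ 2 ≤ l ^ 3 := by
  have e0 : 8 * 2 ^ 52 ≤ B ^ 4 := by rw [hB]; norm_num
  have e1 : K * (8 * 2 ^ 52 * K ^ 2 * u ^ 4) ≤ K * (l + 1) := by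
    calc K * (8 * 2 ^ 52 * K ^ 2 * u ^ 4) = (8 * 2 ^ 52) * K ^ 3 * u ^ 4 := by ring
      _ ≤ B ^ 4 * K ^ 4 * u ^ 4 := by
          refine Nat.mul_le_mul_right _ (Nat.mul_le_mul e0
            (Nat.pow_le_pow_right hK (by norm_num)))
      _ = (B * K * u) ^ 4 := by ring
      _ ≤ 2 * d := h4
      _ = K * (l + 1) := h2d
  have e2 : 8 * 2 ^ 52 * K ^ 2 * u ^ 4 ≤ l + 1 := Nat.le_of_mul_le_mul_left e1 hK
  have e3 : (l + 1) ^ 3 ≤ 8 * l ^ 3 := by
    calc (l + 1) ^ 3 ≤ (2 * l) ^ 3 := Nat.pow_le_pow_left (by omega) 3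
      _ = 8 * l ^ 3 := by ring
  have e4 : 8 * (2 ^ 52 * u ^ 4 * (2 * d) ^ 2) ≤ 8 * l ^ 3 := by
    calc 8 * (2 ^ 52 * u ^ 4 * (2 * d) ^ 2) = (8 * 2 ^ 52 * K ^ 2 * u ^ 4) * (l + 1) ^ 2 := by
          rw [h2d]; ring
      _ ≤ (l + 1) * (l + 1) ^ 2 := Nat.mul_le_mul_right _ e2
      _ = (l + 1) ^ 3 := by ring
      _ ≤ _ := e3
  exact Nat.le_of_mul_le_mul_left e4 (by norm_num)

theorem arith3 (n a l s : ℕ) (hn : n < 2 ^ (l + 1)) (hs : s ≤ n ^ a) :
    8 * s ≤ 4 ^ ((a + 2) * (l + 1)) := by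
  calc 8 * s ≤ 8 * n ^ a := Nat.mul_le_mul_left _ hs
    _ ≤ 8 * (2 ^ (l + 1)) ^ a := Nat.mul_le_mul_left _ (Nat.pow_le_pow_left hn.le a)
    _ = 2 ^ (3 + (l + 1) * a) := by rw [pow_add 2 3, pow_mul]; norm_num
    _ ≤ 2 ^ (2 * ((a + 2) * (l + 1))) := Nat.pow_le_pow_right (by norm_num) (by nlinarith)
    _ = 4 ^ ((a + 2) * (l + 1)) := by rw [pow_mul]; norm_num

/-- **The lower bound for polynomial size.** -/
theorem lower_poly (a : ℕ) : ∃ n₀, ∀ n ≥ n₀, ∀ C : Circuit n,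
    (∀ x, C.eval x = true ↔ List.ofFn x ∈ HalfClique) → C.size ≤ n ^ a →
    n < 2 ^ C.nots * Nat.log 2 n ^ 3 := by
  obtain ⟨A, hA⟩ : ∃ A : ℕ, A = 2 ^ 8 := ⟨_, rfl⟩
  obtain ⟨B, hB⟩ : ∃ B : ℕ, B = 2 ^ 14 := ⟨_, rfl⟩
  obtain ⟨K, hK⟩ : ∃ K : ℕ, K = 2 * (a + 2) := ⟨_, rfl⟩
  obtain ⟨Y, hY⟩ := Filter.eventually_atTop.1 (log_pow_le (B * K) 4)
  obtain ⟨n₀, hn₀⟩ := Filter.eventually_atTop.1 ((log_pow_le (A * K) 24).and
    (tendsto_log.eventually (Filter.eventually_ge_atTop (max Y 1))))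
  refine ⟨n₀, fun n hn C hC hsize => ?_⟩
  obtain ⟨h1, h2⟩ := hn₀ n hn
  obtain ⟨l, hl⟩ : ∃ l, l = Nat.log 2 n := ⟨_, rfl⟩
  rw [← hl] at h1 h2 ⊢
  have hl1 : 1 ≤ l := (le_max_right _ _).trans h2
  obtain ⟨d, hd⟩ : ∃ d, d = (a + 2) * (l + 1) := ⟨_, rfl⟩
  have h2d : 2 * d = K * (l + 1) := by rw [hd, hK]; ring
  have hd2 : 2 ≤ d := by rw [hd]; nlinarith
  have hlog : Nat.log 2 (2 * d) + 1 ≤ 2 * d := Nat.log_lt_self 2 (by omega)
  obtain ⟨u, hu⟩ : ∃ u, u = Nat.log 2 (2 * d) + 1 := ⟨_, rfl⟩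
  have e1 : n < 2 ^ (l + 1) := by rw [hl]; exact Nat.lt_pow_succ_log_self (by norm_num) n
  have k1 : 2 ^ 176 * u ^ 16 * (2 * d) ^ 8 ≤ n := arith1 A K l u d n h2d (by omega) hA h1
  have k2 : 8 * C.size ≤ 4 ^ d := by rw [hd]; exact arith3 n a l C.size e1 hsize
  have h3 := lower C hC d hd2 (by rw [← hu]; exact k1) k2
  rw [← hu] at h3
  have h4 := hY (2 * d) (by
    calc Y ≤ l := (le_max_left _ _).trans h2
      _ ≤ 2 * d := by rw [hd]; nlinarith)
  rw [← hu] at h4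
  have h5 : 2 ^ 52 * u ^ 4 * (2 * d) ^ 2 ≤ l ^ 3 :=
    arith2 B K l u d (by omega) hl1 h2d hB h4
  have hpos : 0 < 2 ^ 51 * u ^ 4 * (2 * d) ^ 2 := by
    have : 0 < u := by omega
    have : 0 < 2 * d := by omega
    positivity
  rw [Nat.div_lt_iff_lt_mul hpos] at h3
  calc n < 2 * 2 ^ C.nots * (2 ^ 51 * u ^ 4 * (2 * d) ^ 2) := h3
    _ = 2 ^ C.nots * (2 ^ 52 * u ^ 4 * (2 * d) ^ 2) := by ring
    _ ≤ 2 ^ C.nots * l ^ 3 := Nat.mul_le_mul_left _ h5

end Pool.Agent.W954.Sav
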