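import Pool.Agent.W954.Sav.Ppoly

/-!
# NP and P/poly: circuits with few NOT gates on few slices
-/

set_option autoImplicit false

namespace Pool.Agent.W954.Sav

open Pool.Agent.NPC Pool.Agent.H520R2.HC

theorem InPpoly.cs {L : Set (List Bool)} (h : InPpoly L) :
    ∃ k : ℕ, ∀ n, ∃ u, Cs (Inp n) (n ^ k + k) u {lf L n} := by
  obtain ⟨k, hk⟩ := h
  refine ⟨k, fun n => ?_⟩
  obtain ⟨C, h1, h2⟩ := hk n
  refine ⟨C.nots, ?_⟩
  have h3 : lf L n = C.eval := by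
    funext x
    rw [Bool.eq_iff_iff, lf_iff, h2]
  rw [h3]
  refine C.cs.mono ?_ le_rfl le_rfl
  have := binary_add_nots C
  omega

theorem inPpoly_of_cs {L : Set (List Bool)} (p : Polynomial ℕ)
    (h : ∀ n, ∃ a u, a ≤ p.eval n ∧ Cs (Inp n) a u {lf L n}) : InPpoly L := by
  obtain ⟨k, hk⟩ := poly_le_pow p
  refine ⟨k, fun n => ?_⟩
  obtain ⟨a, u, h1, h2⟩ := h n
  obtain ⟨C, g1, g2⟩ := h2.circuit_binary
  exact ⟨C, g1.trans (h1.trans (hk n)), fun x => by rw [g2, lf_iff]⟩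

theorem bound1 (n k b s : ℕ) (hs : s ≤ (n + 2) ^ b) (T t' : ℕ) (hT : T ≤ 2 * (n + 1))
    (ht : t' ≤ n + 1) :
    T * ((n + 1) ^ k * (2 * s + 2 * (n + 1) ^ 3) + 5) + 2 * n ^ 2 + t' ≤
      (n + 2) ^ (k + 1 + (b + 11)) := by
  obtain ⟨N, hN⟩ : ∃ N, N = n + 2 := ⟨_, rfl⟩
  have hN2 : 2 ≤ N := by omega
  have e1 : 2 * s + 2 * (n + 1) ^ 3 ≤ N ^ (b + 5) := by
    have k1 : s ≤ N ^ (b + 3) := by
      refine hs.trans ?_
      rw [← hN]
      exact Nat.pow_le_pow_right (by omega) (by omega)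
    have k2 : (n + 1) ^ 3 ≤ N ^ (b + 3) :=
      (Nat.pow_le_pow_left (by omega) 3).trans (Nat.pow_le_pow_right (by omega) (by omega))
    calc 2 * s + 2 * (n + 1) ^ 3 ≤ 4 * N ^ (b + 3) := by omega
      _ ≤ (N * N) * N ^ (b + 3) := Nat.mul_le_mul_right _ (by nlinarith)
      _ = N ^ (b + 5) := by ring
  have e2 : (n + 1) ^ k * (2 * s + 2 * (n + 1) ^ 3) + 5 ≤ N ^ (k + b + 8) := by
    have k1 : (n + 1) ^ k * (2 * s + 2 * (n + 1) ^ 3) ≤ N ^ k * N ^ (b + 5) :=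
      Nat.mul_le_mul (Nat.pow_le_pow_left (by omega) k) e1
    have k2 : 1 ≤ N ^ (k + b + 5) := Nat.one_le_pow _ _ (by omega)
    calc (n + 1) ^ k * (2 * s + 2 * (n + 1) ^ 3) + 5 ≤ N ^ k * N ^ (b + 5) + 5 := by omega
      _ = N ^ (k + b + 5) + 5 := by ring
      _ ≤ 8 * N ^ (k + b + 5) := by omega
      _ ≤ N ^ 3 * N ^ (k + b + 5) := by
          refine Nat.mul_le_mul_right _ ?_
          calc 8 = 2 ^ 3 := by norm_num
            _ ≤ N ^ 3 := Nat.pow_le_pow_left hN2 3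
      _ = N ^ (k + b + 8) := by ring
  have e3 : T * ((n + 1) ^ k * (2 * s + 2 * (n + 1) ^ 3) + 5) ≤ N ^ (k + b + 10) := by
    calc T * ((n + 1) ^ k * (2 * s + 2 * (n + 1) ^ 3) + 5) ≤ (N * N) * N ^ (k + b + 8) :=
          Nat.mul_le_mul (hT.trans (by rw [hN]; nlinarith)) e2
      _ = N ^ (k + b + 10) := by ring
  have e4 : 2 * n ^ 2 + t' ≤ N ^ (k + b + 10) := by
    calc 2 * n ^ 2 + t' ≤ N ^ 3 := by
          rw [hN]
          nlinarith [Nat.zero_le (n ^ 2), Nat.zero_le (n ^ 3)]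
      _ ≤ N ^ (k + b + 10) := Nat.pow_le_pow_right (by omega) (by omega)
  have e5 : (n + 2) ^ (k + 1 + (b + 11)) = N * (N * N ^ (k + b + 10)) := by
    rw [← hN]; ring
  rw [e5]
  have e6 : 2 * N ^ (k + b + 10) ≤ N * N ^ (k + b + 10) := Nat.mul_le_mul_right _ hN2
  have e7 : N * N ^ (k + b + 10) ≤ N * (N * N ^ (k + b + 10)) :=
    Nat.mul_le_mul_left _ (by omega)
  omega

/-- Small circuits with few NOT gates on `w 2 ^ t` slices. -/
theorem nonuniform_windows {L : Set (List Bool)} (hL : InPpoly L) (hm : ∀ n, Monotone (lf L n)) :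
    ∃ a : ℕ, ∀ n m w t, ∃ C : Circuit n, C.nots ≤ t ∧ C.size ≤ (n + 2) ^ (w + a) ∧
      ∀ x, m ≤ wt x → wt x < m + w * 2 ^ t → (C.eval x = true ↔ List.ofFn x ∈ L) := by
  obtain ⟨k, hk⟩ := hL.cs
  obtain ⟨b, hb⟩ := poly_le_pow2 (Polynomial.X ^ k + Polynomial.C k)
  refine ⟨b + 11, fun n m w t => ?_⟩
  cases w with
  | zero =>
    obtain ⟨C, h1, h2, h3, -⟩ := (Cs.base (B := Inp n) (M := {fun _ => false}) (by
      rintro f rfl
      exact Or.inr ⟨false, rfl⟩)).circuit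
    exact ⟨C, by omega, by omega, fun x h4 h5 => by omega⟩
  | succ w =>
    obtain ⟨u, hu⟩ := hk n
    set t' := min t (Nat.clog 2 (n + 1)) with ht'
    obtain ⟨C, h1, h2, h3, -⟩ := (few_nots (hm n) hu m w t').circuit
    have e1 : Nat.clog 2 (n + 1) ≤ n + 1 :=
      Nat.clog_le_of_le_pow (Nat.lt_two_pow_self).le
    have e2 : 2 ^ Nat.clog 2 (n + 1) ≤ 2 * (n + 1) := by
      rcases Nat.eq_zero_or_pos n with rfl | hn
      · simp
      · have := Nat.pow_pred_clog_lt_self (b := 2) (by norm_num) (show 1 < n + 1 by omega)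
        have e3 : 0 < Nat.clog 2 (n + 1) := Nat.clog_pos (by norm_num) (by omega)
        obtain ⟨c, hc⟩ : ∃ c, Nat.clog 2 (n + 1) = c + 1 := ⟨Nat.clog 2 (n + 1) - 1, by omega⟩
        rw [hc] at this ⊢
        rw [Nat.pred_succ] at this
        rw [pow_succ]
        omega
    have e4 : 2 ^ t' ≤ 2 * (n + 1) :=
      (Nat.pow_le_pow_right (by norm_num) (min_le_right _ _)).trans e2
    have e5 : t' ≤ n + 1 := (min_le_right _ _).trans e1
    refine ⟨C, h2.trans (min_le_left _ _), ?_, fun x hx1 hx2 => ?_⟩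
    · refine h1.trans (bound1 n w b (n ^ k + k) ?_ (2 ^ t') t' e4 e5)
      have := hb n
      simpa using this
    · rw [h3, ← lf_iff]
      have e7 : ¬ m + (w + 1) * 2 ^ t' ≤ wt x := by
        rcases le_total t (Nat.clog 2 (n + 1)) with h | h
        · rw [ht', min_eq_left h]
          omega
        · rw [ht', min_eq_right h]
          have e8 : n + 1 ≤ 2 ^ Nat.clog 2 (n + 1) := Nat.le_pow_clog (by norm_num) _
          have e9 := wt_le x
          nlinarith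
      unfold Win
      simp [hx1, e7]

/-- From slices to all inputs. -/
theorem inPpoly_of_slices {L : Set (List Bool)} (a : ℕ)
    (h : ∀ n m, ∃ C : Circuit n, C.size ≤ n ^ a + a ∧
      ∀ x, wt x = m → (C.eval x = true ↔ List.ofFn x ∈ L)) : InPpoly L := by
  refine inPpoly_of_cs ((Polynomial.C 2 * Polynomial.X + Polynomial.C 2) *
    (Polynomial.X ^ a + Polynomial.C a) + Polynomial.C 2 * Polynomial.X ^ 2 + Polynomial.C 5 *
    (Polynomial.C 2 * Polynomial.X + Polynomial.C 2)) (fun n => ?_)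
  choose C hC1 hC2 using h n
  have e2 : 2 ^ Nat.clog 2 (n + 1) ≤ 2 * n + 2 := by
    rcases Nat.eq_zero_or_pos n with rfl | hn
    · simp
    · have := Nat.pow_pred_clog_lt_self (b := 2) (by norm_num) (show 1 < n + 1 by omega)
      have e3 : 0 < Nat.clog 2 (n + 1) := Nat.clog_pos (by norm_num) (by omega)
      obtain ⟨c, hc⟩ : ∃ c, Nat.clog 2 (n + 1) = c + 1 := ⟨Nat.clog 2 (n + 1) - 1, by omega⟩
      rw [hc] at this ⊢
      rw [Nat.pred_succ] at this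
      rw [pow_succ]
      omega
  obtain ⟨U, hU⟩ : ∃ U, U = n ^ a + a := ⟨_, rfl⟩
  have h1 : ∃ u, Cs (Inp n) (2 ^ Nat.clog 2 (n + 1) * U) u
      {f | ∃ j < 2 ^ Nat.clog 2 (n + 1), f = (C j).eval} := by
    have key : ∀ J : ℕ, ∃ u, Cs (Inp n) (J * U) u {f | ∃ j < J, f = (C j).eval} := by
      intro J
      induction J with
      | zero =>
        refine ⟨0, (Cs.base (Set.empty_subset (Inp n))).mono (Nat.zero_le _) le_rfl ?_⟩
        rintro f ⟨j, hj, _⟩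
        omega
      | succ J ih =>
        obtain ⟨u, hu⟩ := ih
        have h2 := hu.union (C J).cs
        refine ⟨_, h2.mono (a' := (J + 1) * U) (t' := u + (C J).nots) ?_ le_rfl ?_⟩
        · rw [Nat.succ_mul]
          have := hC1 J
          omega
        · rintro f ⟨j, hj, rfl⟩
          rcases Nat.lt_succ_iff_lt_or_eq.1 hj with h | h
          · exact Or.inl ⟨j, h, rfl⟩
          · subst h
            exact Or.inr rfl
    exact key _
  obtain ⟨u, hu⟩ := h1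
  have h3 := select (Inp n) (Nat.clog 2 (n + 1)) wt (fun j => (C j).eval) _ _ _ (fun x => by
      have := wt_le x
      have := Nat.le_pow_clog (b := 2) (by norm_num) (n + 1)
      omega)
    (fun j _ _ => Or.inr ⟨j, rfl⟩) (fun j hj => Or.inl ⟨j, hj, rfl⟩) (hu.union thr)
  refine ⟨_, _, ?_, h3.mono le_rfl le_rfl ?_⟩
  · simp only [Polynomial.eval_add, Polynomial.eval_mul, Polynomial.eval_C, Polynomial.eval_X,
      Polynomial.eval_pow]
    rw [← hU]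
    have e5 : 2 ^ Nat.clog 2 (n + 1) * U ≤ (2 * n + 2) * U := Nat.mul_le_mul_right _ e2
    omega
  · rintro f rfl
    show lf L n = _
    funext x
    rw [Bool.eq_iff_iff, lf_iff]
    exact (hC2 (wt x) x rfl).symm

/-- **The nonuniform equivalences.** -/
theorem tfae_nonuniform {L : Set (List Bool)} (hNP : InNP L) (hH : NPHard L) (hm : MonoLang L)
    (k c : ℕ) :
    List.TFAE [
      ∀ L', InNP L' → InPpoly L',
      ∃ a : ℕ, ∀ n m, ∃ C : Circuit n, C.nots = 0 ∧ C.size ≤ n ^ a + a ∧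
        ∀ x, m ≤ wt x → wt x ≤ m + k → (C.eval x = true ↔ List.ofFn x ∈ L),
      ∃ a : ℕ, ∀ n m w t, ∃ C : Circuit n, C.nots ≤ t ∧ C.size ≤ (n + 2) ^ (w + a) ∧
        ∀ x, m ≤ wt x → wt x < m + w * 2 ^ t → (C.eval x = true ↔ List.ofFn x ∈ L),
      ∃ a : ℕ, ∀ n, ∃ C : Circuit n, C.nots ≤ Nat.clog 2 (n + 1) - c ∧ C.size ≤ n ^ a + a ∧
        ∀ x, C.eval x = true ↔ List.ofFn x ∈ L] := by
  tfae_have 1 → 3 := fun h => nonuniform_windows (h L hNP) hm.lf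
  tfae_have 3 → 2 := by
    rintro ⟨a, ha⟩
    obtain ⟨a', ha'⟩ := poly_le_pow ((Polynomial.X + Polynomial.C 2) ^ (k + 1 + a))
    refine ⟨a', fun n m => ?_⟩
    obtain ⟨C, h1, h2, h3⟩ := ha n m (k + 1) 0
    refine ⟨C, by omega, h2.trans ?_, fun x hx1 hx2 => h3 x hx1 (by omega)⟩
    have := ha' n
    simpa using this
  tfae_have 2 → 1 := by
    rintro ⟨a, ha⟩ L' hL'
    refine InPpoly.of_reduces (hH L' hL') (inPpoly_of_slices a fun n m => ?_)
    obtain ⟨C, h1, h2, h3⟩ := ha n m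
    exact ⟨C, h2, fun x hx => h3 x (by omega) (by omega)⟩
  tfae_have 3 → 4 := by
    rintro ⟨a, ha⟩
    obtain ⟨a', ha'⟩ := poly_le_pow ((Polynomial.X + Polynomial.C 2) ^ (2 ^ c + a))
    refine ⟨a', fun n => ?_⟩
    obtain ⟨C, h1, h2, h3⟩ := ha n 0 (2 ^ c) (Nat.clog 2 (n + 1) - c)
    refine ⟨C, h1, h2.trans ?_, fun x => h3 x (Nat.zero_le _) ?_⟩
    · have := ha' n
      simpa using this
    · have h4 := wt_lt_all n c x
      have h5 : 1 ≤ 2 ^ c := Nat.one_le_two_pow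
      rwa [Nat.sub_add_cancel h5] at h4
  tfae_have 4 → 1 := by
    rintro ⟨a, ha⟩ L' hL'
    refine InPpoly.of_reduces (hH L' hL') ⟨a, fun n => ?_⟩
    obtain ⟨C, h1, h2, h3⟩ := ha n
    refine ⟨C, ?_, h3⟩
    have := binary_add_nots C
    omega
  tfae_finish

/-! ### the exponential lower bound on layers -/

theorem arithE (d u : ℕ) (h : 2 ^ 191 * u ^ 16 ≤ d) :
    4 * (2 ^ 176 * u ^ 16 * (2 * d) ^ 8) ≤ d ^ 9 := by
  calc 4 * (2 ^ 176 * u ^ 16 * (2 * d) ^ 8) = (2 ^ 186 * u ^ 16) * d ^ 8 := by ring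
    _ ≤ (2 ^ 191 * u ^ 16) * d ^ 8 :=
        Nat.mul_le_mul_right _ (Nat.mul_le_mul_right _ (by norm_num))
    _ ≤ d * d ^ 8 := Nat.mul_le_mul_right _ h
    _ = d ^ 9 := by ring

/-- **Layers of `2 ^ t d ^ 9` slices need size `2 ^ d` with `t` NOT gates.** -/
theorem lower_exp : ∃ d₀ : ℕ, ∀ d ≥ d₀, ∀ n t m : ℕ, 100 * (2 ^ t * d ^ 9) ≤ n →
    2 * n ≤ 5 * m → 2 * m ≤ n → ∀ C : Circuit n, C.nots ≤ t →
    (∀ x, m ≤ wt x → wt x < m + 2 ^ t * d ^ 9 → (C.eval x = true ↔ List.ofFn x ∈ HalfClique)) →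
    2 ^ d < C.size := by
  obtain ⟨B, hB⟩ : ∃ B : ℕ, B = 2 ^ 12 := ⟨_, rfl⟩
  obtain ⟨Y, hY⟩ := Filter.eventually_atTop.1 (log_pow_le B 16)
  refine ⟨max Y 3, fun d hd n t m h1 hm1 hm2 C hCt hC => ?_⟩
  by_contra hcon
  push Not at hcon
  have hd3 : 3 ≤ d := (le_max_right _ _).trans hd
  obtain ⟨u, hu⟩ : ∃ u, u = Nat.log 2 (2 * d) + 1 := ⟨_, rfl⟩
  have h4 := hY (2 * d) (by
    have := (le_max_left _ _).trans hd
    omega)
  rw [← hu] at h4
  have h5 : 2 ^ 191 * u ^ 16 ≤ d := by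
    have e1 : 2 * (2 ^ 191 * u ^ 16) ≤ 2 * d := by
      calc 2 * (2 ^ 191 * u ^ 16) = (2 ^ 12 * u) ^ 16 := by ring
        _ = (B * u) ^ 16 := by rw [hB]
        _ ≤ 2 * d := h4
    exact Nat.le_of_mul_le_mul_left e1 (by norm_num)
  have h6 := arithE d u h5
  obtain ⟨W, hW⟩ : ∃ W, W = 2 ^ t * d ^ 9 := ⟨_, rfl⟩
  rw [← hW] at h1 hC
  have h2t : 1 ≤ 2 ^ t := Nat.one_le_two_pow
  have hWl : d ^ 9 ≤ W := by rw [hW]; exact Nat.le_mul_of_pos_left _ h2t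
  have hW20 : 20 ≤ W := by
    have : 3 ^ 9 ≤ d ^ 9 := Nat.pow_le_pow_left hd3 9
    omega
  obtain ⟨r, hr1, hr2, hr3, hr4⟩ := arith_r W hW20
  obtain ⟨D, g1, g2, g3⟩ := window_red C hm1 hm2 hC hr1 hr2 hr3 (by omega) (by omega)
  have k2 : 8 * D.size ≤ 4 ^ d := by
    calc 8 * D.size ≤ 8 * 2 ^ d := Nat.mul_le_mul_left _ (g2.trans hcon)
      _ = 2 ^ 3 * 2 ^ d := by norm_num
      _ ≤ 2 ^ d * 2 ^ d := Nat.mul_le_mul_right _ (Nat.pow_le_pow_right (by norm_num) hd3)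
      _ = 4 ^ d := by rw [← mul_pow]; norm_num
  have hupos : 1 ≤ u := by omega
  have k1 : 2 ^ 176 * u ^ 16 * (2 * d) ^ 8 ≤ r * r :=
    Nat.le_of_mul_le_mul_left (h6.trans (hWl.trans hr4)) (by norm_num)
  have h3 := lower D g3 d (by omega) (by rw [← hu]; exact k1) k2
  rw [← hu] at h3
  have hpos : 0 < 2 ^ 51 * u ^ 4 * (2 * d) ^ 2 := by
    have : 0 < u := by omega
    have : 0 < 2 * d := by omega
    positivity
  rw [Nat.div_lt_iff_lt_mul hpos] at h3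
  have e4 : 2 ^ D.nots ≤ 2 ^ t := Nat.pow_le_pow_right (by norm_num) (g1.trans hCt)
  have e6 : 4 * (2 ^ 52 * u ^ 4 * (2 * d) ^ 2) ≤ d ^ 9 := by
    refine le_trans ?_ h6
    refine Nat.mul_le_mul_left _ (Nat.mul_le_mul (Nat.mul_le_mul (by norm_num) ?_) ?_)
    · exact Nat.pow_le_pow_right hupos (by norm_num)
    · exact Nat.pow_le_pow_right (by omega) (by norm_num)
  have e7 : 4 * (r * r) < 4 * (r * r) := by
    calc 4 * (r * r) < 4 * (2 * 2 ^ D.nots * (2 ^ 51 * u ^ 4 * (2 * d) ^ 2)) := by omega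
      _ = 2 ^ D.nots * (4 * (2 ^ 52 * u ^ 4 * (2 * d) ^ 2)) := by ring
      _ ≤ 2 ^ t * d ^ 9 := Nat.mul_le_mul e4 e6
      _ = W := hW.symm
      _ ≤ 4 * (r * r) := hr4
  omega

end Pool.Agent.W954.Sav
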