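import Pool.Agent.W954.Sav.Defs

/-!
# The class P/poly
-/

set_option autoImplicit false

namespace Pool.Agent.W954.Sav

/-- The number of AND and OR gates. -/
def Circuit.binary {n : ℕ} (C : Circuit n) : ℕ := (C.gates.filter fun g => g.1 ≠ 0).length

/-- The class `P/poly`: the languages which are decided by circuits with at most `n ^ k + k` AND and
OR gates on the inputs of length `n`, for some `k`. -/
def InPpoly (L : Set (List Bool)) : Prop :=
  ∃ k : ℕ, ∀ n : ℕ, ∃ C : Circuit n, C.binary ≤ n ^ k + k ∧
    ∀ x, C.eval x = true ↔ List.ofFn x ∈ L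

end Pool.Agent.W954.Sav
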