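import Pool.Agent.W954.Sav.PDefs
import Pool.Agent.W954.Sav.Final

/-!
# Closure of P/poly under reductions, and the nonuniform equivalences
-/

set_option autoImplicit false

namespace Pool.Agent.W954.Sav

open Pool.Agent.NPC Pool.Agent.H520R2.HC

theorem binary_add_nots {n : ℕ} (C : Circuit n) : C.binary + C.nots = C.size := by
  have h := List.length_eq_length_filter_add (l := C.gates) (fun g => decide (g.1 = 0))
  have h2 : (C.gates.filter fun g => !decide (g.1 = 0)) = C.gates.filter fun g => g.1 ≠ 0 := by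
    congr 1
    funext g
    simp
  unfold Circuit.binary Circuit.nots Circuit.size
  rw [← h2]
  omega

theorem poly_le_pow2 (p : Polynomial ℕ) : ∃ k : ℕ, ∀ n : ℕ, p.eval n ≤ (n + 2) ^ k := by
  induction p using Polynomial.induction_on' with
  | add p q hp hq =>
    obtain ⟨a, ha⟩ := hp
    obtain ⟨b, hb⟩ := hq
    refine ⟨a + b + 1, fun n => ?_⟩
    have h1 : (n + 2) ^ a ≤ (n + 2) ^ (a + b) := Nat.pow_le_pow_right (by omega) (by omega)
    have h2 : (n + 2) ^ b ≤ (n + 2) ^ (a + b) := Nat.pow_le_pow_right (by omega) (by omega)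
    rw [Polynomial.eval_add, pow_succ]
    calc p.eval n + q.eval n ≤ (n + 2) ^ (a + b) + (n + 2) ^ (a + b) :=
          Nat.add_le_add ((ha n).trans h1) ((hb n).trans h2)
      _ = (n + 2) ^ (a + b) * 2 := by ring
      _ ≤ (n + 2) ^ (a + b) * (n + 2) := Nat.mul_le_mul_left _ (by omega)
  | monomial k a =>
    refine ⟨a + k, fun n => ?_⟩
    rw [Polynomial.eval_monomial, pow_add]
    exact Nat.mul_le_mul ((Nat.lt_two_pow_self).le.trans (Nat.pow_le_pow_left (by omega) a))
      (Nat.pow_le_pow_left (by omega) k)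

/-- Polynomial bounds. -/
theorem poly_le_pow (p : Polynomial ℕ) : ∃ k : ℕ, ∀ n : ℕ, p.eval n ≤ n ^ k + k := by
  obtain ⟨a, ha⟩ := poly_le_pow2 p
  refine ⟨2 * a + 3 ^ a, fun n => (ha n).trans ?_⟩
  rcases Nat.lt_or_ge n 2 with hn | hn
  · calc (n + 2) ^ a ≤ 3 ^ a := Nat.pow_le_pow_left (by omega) a
      _ ≤ n ^ (2 * a + 3 ^ a) + (2 * a + 3 ^ a) :=
        (Nat.le_add_left _ _).trans (Nat.le_add_left _ _)
  · calc (n + 2) ^ a ≤ (n * n) ^ a := Nat.pow_le_pow_left (by nlinarith) a
      _ = n ^ (2 * a) := by rw [← pow_two, ← pow_mul]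
      _ ≤ n ^ (2 * a + 3 ^ a) := Nat.pow_le_pow_right (by omega) (Nat.le_add_right _ _)
      _ ≤ _ := Nat.le_add_right _ _

/-- Normal form: few NOT gates. -/
theorem two_rail_circuit {n s u : ℕ} {f : (Fin n → Bool) → Bool} (h : Cs (Inp n) s u {f}) :
    Cs (Inp n) (2 * s) n {f} := by
  obtain ⟨p, hp1, -, hp3⟩ := rail h
  have h1 : Cs (Inp n) 0 n {g | ∃ i : Fin n, g = fun x => !x i} := by
    have key : ∀ j ≤ n, Cs (Inp n) 0 j {g | ∃ i : Fin n, i.val < j ∧ g = fun x => !x i} := by
      intro j
      induction j with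
      | zero =>
        intro _
        refine (Cs.base (Set.empty_subset _)).mono le_rfl le_rfl ?_
        rintro g ⟨i, hi, _⟩
        omega
      | succ j ih =>
        intro hj
        have h2 := (ih (by omega)).not (f := fun x => x ⟨j, hj⟩) (Or.inr (Or.inl ⟨_, rfl⟩))
        refine h2.mono le_rfl le_rfl ?_
        rintro g ⟨i, hi, rfl⟩
        rcases Nat.lt_succ_iff_lt_or_eq.1 hi with h | h
        · exact Or.inr ⟨i, h, rfl⟩
        · left
          have : i = ⟨j, hj⟩ := Fin.ext h
          rw [this]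
    refine (key n le_rfl).mono le_rfl le_rfl ?_
    rintro g ⟨i, rfl⟩
    exact ⟨i, i.isLt, rfl⟩
  have h2 := Cs.comp (B := Inp2 n) (B' := Inp n)
    (fun x => ((x, fun i => !x i) : (Fin n → Bool) × (Fin n → Bool))) h1 (by
      rintro b (⟨i, rfl⟩ | ⟨i, rfl⟩ | ⟨c, rfl⟩)
      · exact Or.inr (Or.inl ⟨i, rfl⟩)
      · exact Or.inl ⟨i, rfl⟩
      · exact Or.inr (Or.inr ⟨c, rfl⟩)) hp1
  refine h2.mono (by omega) (by omega) ?_
  rintro g rfl
  right
  exact ⟨p, rfl, funext fun x => hp3 x⟩

/-- Languages in `P/poly` have circuits with descriptions of polynomial length. -/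
theorem InPpoly.short {L : Set (List Bool)} (h : InPpoly L) :
    ∃ r : Polynomial ℕ, ∀ n, ∃ C : Circuit n, C.desc.length ≤ r.eval n ∧
      ∀ x, C.eval x = true ↔ List.ofFn x ∈ L := by
  obtain ⟨k, hk⟩ := h
  let s : Polynomial ℕ := Polynomial.C 2 * (Polynomial.X ^ k + Polynomial.C k) + Polynomial.X
  refine ⟨s * (Polynomial.C 8 * (Polynomial.X + Polynomial.C 2 + s) + Polynomial.C 20) +
    Polynomial.C 4 * (Polynomial.X + Polynomial.C 2 + s) + Polynomial.C 5, fun n => ?_⟩
  obtain ⟨C, h1, h2⟩ := hk n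
  have h3 : Cs (Inp n) (n ^ k + k) C.nots {C.eval} := by
    refine C.cs.mono ?_ le_rfl le_rfl
    have := binary_add_nots C
    omega
  obtain ⟨D, g1, g2, g3, g4⟩ := (two_rail_circuit h3).circuit
  refine ⟨D, (length_desc D g4).trans ?_, fun x => by rw [g3]; exact h2 x⟩
  have hs : D.size ≤ s.eval n := by
    simp only [s, Polynomial.eval_add, Polynomial.eval_mul, Polynomial.eval_C,
      Polynomial.eval_X, Polynomial.eval_pow]
    exact g1
  simp only [Polynomial.eval_add, Polynomial.eval_mul, Polynomial.eval_C, Polynomial.eval_X]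
  have e2 : D.size * (8 * (n + 2 + D.size) + 20) ≤ s.eval n * (8 * (n + 2 + s.eval n) + 20) :=
    Nat.mul_le_mul hs (by omega)
  omega

theorem Cs.circuit_binary {n a t : ℕ} {f : (Fin n → Bool) → Bool} (h : Cs (Inp n) a t {f}) :
    ∃ C : Circuit n, C.binary ≤ a ∧ C.eval = f := by
  obtain ⟨l, a', t', h1, h2, h3, h4⟩ := h
  obtain ⟨gs, g1, g2, g3, g4, -⟩ := slp_gates h1
  obtain ⟨k, hk, hkf⟩ := g4 f (h4 f rfl)
  refine ⟨⟨gs, k, g1, hk⟩, ?_, hkf⟩
  have h5 := binary_add_nots (⟨gs, k, g1, hk⟩ : Circuit n)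
  have h6 : (⟨gs, k, g1, hk⟩ : Circuit n).nots = t' := g3
  have h7 : (⟨gs, k, g1, hk⟩ : Circuit n).size = a' + t' := g2
  omega

/-- the first bits of a list -/
def cut (u : List Unit) (w : List Bool) : List Bool := (w.zip u).map Prod.fst

theorem cut_append : ∀ (w : List Bool) (u : List Unit) (v : List Bool), w.length = u.length →
    cut u (w ++ v) = w
  | [], [], v, _ => by simp [cut]
  | [], _ :: _, _, h => by simp at h
  | _ :: _, [], _, h => by simp at h
  | b :: w, c :: u, v, h => by
    have ih := cut_append w u v (by simpa using h)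
    unfold cut at ih ⊢
    rw [List.cons_append, List.zip_cons_cons, List.map_cons, ih]

/-- the algorithm with advice -/
def advV (f : List Bool → List Bool) (z : (List Unit × List (List Gate × ℕ)) × List Bool) : Bool :=
  evalD (z.1.2.getD (f (cut z.1.1 z.2)).length ([], 0)) (f (cut z.1.1 z.2))

theorem poly_advV {f : List Bool → List Bool} (hf : Poly f) : Poly (advV f) := by
  unfold advV cut
  have h1 : Poly (fun z : (List Unit × List (List Gate × ℕ)) × List Bool =>
      f ((z.2.zip z.1.1).map Prod.fst)) := hf.comp (by fun_prop)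
  exact poly_evalD (Poly.getD (by fun_prop) (Poly.length h1) (NPC.Poly.const _)) h1

/-- the raw algorithm -/
def rawV (f : List Bool → List Bool) (y : List Bool) : List Bool :=
  [(unbits (List Unit × List (List Gate × ℕ)) (unpair y).1).elim false fun A =>
    advV f (A, (unpair y).2)]

theorem polyTime_rawV {f : List Bool → List Bool} (hf : Poly f) : PolyTime (rawV f) := by
  unfold rawV
  refine polyTime_of_poly (NPC.Poly.optElim (h := fun (y : List Bool)
    (A : List Unit × List (List Gate × ℕ)) => advV f (A, (unpair y).2))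
    (poly_unbits.comp (Poly.fst poly_unpair)) (NPC.Poly.const _) ((poly_advV hf).comp
      (Poly.pair (Poly.snd Poly.id) (Poly.snd (poly_unpair.comp (Poly.fst Poly.id))))))

/-- **`P/poly` is closed under polynomial-time reductions.** -/
theorem InPpoly.of_reduces {L L' : Set (List Bool)} (h : Reduces L' L) (hL : InPpoly L) :
    InPpoly L' := by
  obtain ⟨f, hf, hfL⟩ := h
  have hfp := H622R2.poly_of_polyTime hf
  obtain ⟨r, hr⟩ := hL.short
  obtain ⟨b, hb⟩ := hfp.sz_le
  choose C hC1 hC2 using hr
  -- the advice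
  let P : Polynomial ℕ := b.comp (Polynomial.C 4 * Polynomial.X + 1)
  let adv : ℕ → List (List Gate × ℕ) := fun n =>
    (List.range (P.eval n + 1)).map fun j => ((C j).gates, (C j).out)
  let xn : ℕ → List Bool := fun n => bits (List.replicate n (), adv n)
  obtain ⟨q, hq⟩ := H547R8.t_CKT H547R8.t_LAY _ (polyTime_rawV hfp) (Polynomial.X + 1)
    (fun m => by simp)
  -- the length of the output
  have hlen : ∀ w : List Bool, (f w).length ≤ P.eval w.length := by
    intro w
    have e1 := length_lt_sz (f w)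
    have e2 := hb w
    have e3 := eval_mono b (sz_listBool_le w)
    simp only [P, Polynomial.eval_comp, Polynomial.eval_add, Polynomial.eval_mul,
      Polynomial.eval_C, Polynomial.eval_X, Polynomial.eval_one]
    omega
  -- the length of the advice
  have hrm : ∀ j n, j ≤ P.eval n → r.eval j ≤ r.eval (P.eval n) := fun j n h => eval_mono r h
  let Q : Polynomial ℕ := Polynomial.C 2 * Polynomial.X + 2 +
    ((P + 1) * (r.comp P + 1) + 1)
  have hxn : ∀ n, (xn n).length ≤ Q.eval n := by
    intro n
    have e1 : sz (adv n) ≤ (adv n).length * (r.eval (P.eval n) + 1) + 1 := by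
      refine sz_le_length_mul _ _ ?_
      intro D hD
      obtain ⟨j, hj, rfl⟩ := List.mem_map.1 hD
      rw [List.mem_range] at hj
      exact (hC1 j).trans (hrm j n (by omega))
    have e2 : sz (List.replicate n ()) = 2 * n + 1 := by
      clear e1
      induction n with
      | zero => rfl
      | succ n ih => rw [List.replicate_succ, sz_list_cons, ih]; simp; omega
    have e3 : (adv n).length = P.eval n + 1 := by simp [adv]
    simp only [xn]
    rw [bits_length, sz_pair, e2]
    rw [e3] at e1
    simp only [Q, Polynomial.eval_add, Polynomial.eval_mul, Polynomial.eval_C, Polynomial.eval_X,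
      Polynomial.eval_one, Polynomial.eval_comp, Polynomial.eval_ofNat]
    omega
  have hnx : ∀ n, n ≤ (xn n).length + 1 := by
    intro n
    have e1 := length_lt_sz (List.replicate n ())
    rw [List.length_replicate] at e1
    simp only [xn]
    rw [bits_length, sz_pair]
    omega
  obtain ⟨k, hk⟩ := poly_le_pow (q.comp Q)
  refine ⟨k, fun n => ?_⟩
  have h0 := hq (xn n)
  rw [show (Polynomial.X + 1 : Polynomial ℕ).eval (xn n).length = (xn n).length + 1 by simp] at h0
  obtain ⟨M, hM⟩ : ∃ M, M = (xn n).length + 1 := ⟨_, rfl⟩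
  rw [← hM] at h0
  obtain ⟨l, s', h1, h2, h3⟩ := h0
  obtain ⟨u, hu⟩ := aon_slp h1
  have hcs : Cs (Inp M) s' u {H547R8.acc (rawV f) (xn n) M} := by
    refine ⟨l, s', u, hu, le_rfl, le_rfl, ?_⟩
    rintro g rfl
    rcases h3 with h3 | ⟨i, hi⟩
    · exact Or.inl h3
    · exact Or.inr (Or.inl ⟨i, hi⟩)
  let φ : (Fin n → Bool) → (Fin M → Bool) := fun w i => if h : i.val < n then w ⟨i, h⟩ else false
  have hcs2 := Cs.comp (B := Inp M) (B' := Inp n) φ (Cs.base (Set.empty_subset (Inp n))) (by
    rintro g (⟨i, rfl⟩ | ⟨c, rfl⟩)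
    · right
      by_cases hi : i.val < n
      · exact Or.inl ⟨⟨i, hi⟩, by funext w; simp [φ, hi]⟩
      · exact Or.inr ⟨false, by funext w; simp [φ, hi]⟩
    · exact Or.inr (Or.inr ⟨c, rfl⟩)) hcs
  have hofn : ∀ w : Fin n → Bool, List.ofFn (φ w) = List.ofFn w ++ List.replicate (M - n) false := by
    intro w
    have hnM := hnx n
    apply List.ext_getElem
    · simp
      omega
    · intro i h1 h2
      rw [List.getElem_ofFn, List.getElem_append]
      by_cases hi : i < n
      · simp [φ, hi]
      · simp [φ, hi]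
  have hfun : H547R8.acc (rawV f) (xn n) M ∘ φ = lf L' n := by
    funext w
    rw [Bool.eq_iff_iff, lf_iff, hfL]
    simp only [Function.comp_apply, H547R8.acc, decide_eq_true_eq]
    unfold rawV
    have e1 : unbits (List Unit × List (List Gate × ℕ)) (xn n) =
        some (List.replicate n (), adv n) := unbits_bits _
    rw [unpair_pairBits]
    simp only [e1, Option.elim_some, List.cons.injEq, and_true]
    unfold advV
    simp only
    rw [hofn, cut_append _ _ _ (by simp)]
    have e2 := hlen (List.ofFn w)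
    rw [List.length_ofFn] at e2
    have e3 : (adv n).getD (f (List.ofFn w)).length ([], 0) =
        ((C (f (List.ofFn w)).length).gates, (C (f (List.ofFn w)).length).out) := by
      simp only [adv]
      rw [List.getD_eq_getElem _ _ (by simp; omega), List.getElem_map, List.getElem_range]
    rw [e3]
    have e4 := hC2 (f (List.ofFn w)).length (f (List.ofFn w)).get
    rw [List.ofFn_get] at e4
    rw [← e4]
    unfold evalD Circuit.eval
    rw [List.ofFn_get]
  have hcs3 : Cs (Inp n) s' u {lf L' n} := by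
    refine hcs2.mono (by omega) (by omega) ?_
    rintro g rfl
    exact Or.inr ⟨_, rfl, hfun⟩
  obtain ⟨D, g1, g2⟩ := hcs3.circuit_binary
  refine ⟨D, ?_, fun w => by rw [g2, lf_iff]⟩
  calc D.binary ≤ s' := g1
    _ ≤ q.eval (xn n).length := h2
    _ ≤ q.eval (Q.eval n) := eval_mono q (hxn n)
    _ = (q.comp Q).eval n := by rw [Polynomial.eval_comp]
    _ ≤ n ^ k + k := hk n

end Pool.Agent.W954.Sav
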