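import Mathlib

/-!
# Straight-line programs with AND, OR and NOT gates over a set of given functions
-/

set_option autoImplicit false

namespace Pool.Agent.W954.Sav

/-- Straight-line programs over the given functions `B`: `SLP B a t l` says that `l` is the list of
the functions computed by a program with `a` gates AND, OR and `t` gates NOT, the last one
first. -/
inductive SLP {V : Type} (B : Set (V → Bool)) : ℕ → ℕ → List (V → Bool) → Prop
  | nil : SLP B 0 0 []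
  | not (a t : ℕ) (l : List (V → Bool)) (f : V → Bool) (h : SLP B a t l) (hf : f ∈ l ∨ f ∈ B) :
      SLP B a (t + 1) ((fun x => !f x) :: l)
  | and (a t : ℕ) (l : List (V → Bool)) (f g : V → Bool) (h : SLP B a t l) (hf : f ∈ l ∨ f ∈ B)
      (hg : g ∈ l ∨ g ∈ B) : SLP B (a + 1) t ((fun x => f x && g x) :: l)
  | or (a t : ℕ) (l : List (V → Bool)) (f g : V → Bool) (h : SLP B a t l) (hf : f ∈ l ∨ f ∈ B)
      (hg : g ∈ l ∨ g ∈ B) : SLP B (a + 1) t ((fun x => f x || g x) :: l)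

/-- All functions of `M` are computed from the functions `B` with at most `a` gates AND, OR and at
most `t` gates NOT. -/
def Cs {V : Type} (B : Set (V → Bool)) (a t : ℕ) (M : Set (V → Bool)) : Prop :=
  ∃ (l : List (V → Bool)) (a' t' : ℕ), SLP B a' t' l ∧ a' ≤ a ∧ t' ≤ t ∧ ∀ f ∈ M, f ∈ l ∨ f ∈ B

variable {V W : Type}

theorem SLP.comp {B : Set (V → Bool)} {B' : Set (W → Bool)} (φ : W → V) {a₀ t₀ : ℕ}
    {l₀ : List (W → Bool)} (h₀ : SLP B' a₀ t₀ l₀) (hb : ∀ b ∈ B, b ∘ φ ∈ l₀ ∨ b ∘ φ ∈ B')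
    {a t : ℕ} {l : List (V → Bool)} (h : SLP B a t l) :
    SLP B' (a₀ + a) (t₀ + t) (l.map (· ∘ φ) ++ l₀) := by
  have av : ∀ (l : List (V → Bool)) (f : V → Bool), f ∈ l ∨ f ∈ B →
      f ∘ φ ∈ l.map (· ∘ φ) ++ l₀ ∨ f ∘ φ ∈ B' := by
    rintro l f (hf | hf)
    · exact Or.inl (List.mem_append_left _ (List.mem_map.2 ⟨f, hf, rfl⟩))
    · rcases hb f hf with h | h
      · exact Or.inl (List.mem_append_right _ h)
      · exact Or.inr h
  induction h with
  | nil => simpa using h₀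
  | not a t l f h hf ih => exact SLP.not _ _ _ _ ih (av l f hf)
  | and a t l f g h hf hg ih => exact SLP.and _ _ _ _ _ ih (av l f hf) (av l g hg)
  | or a t l f g h hf hg ih => exact SLP.or _ _ _ _ _ ih (av l f hf) (av l g hg)

theorem Cs.mono {B : Set (V → Bool)} {a t a' t' : ℕ} {M M' : Set (V → Bool)} (h : Cs B a t M)
    (ha : a ≤ a') (ht : t ≤ t') (hM : M' ⊆ M) : Cs B a' t' M' := by
  obtain ⟨l, a₁, t₁, h1, h2, h3, h4⟩ := h
  exact ⟨l, a₁, t₁, h1, h2.trans ha, h3.trans ht, fun f hf => h4 f (hM hf)⟩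

theorem Cs.base {B : Set (V → Bool)} {M : Set (V → Bool)} (h : M ⊆ B) : Cs B 0 0 M :=
  ⟨[], 0, 0, SLP.nil, le_rfl, le_rfl, fun _ hf => Or.inr (h hf)⟩

/-- Composition. -/
theorem Cs.comp {B : Set (V → Bool)} {B' : Set (W → Bool)} (φ : W → V) {a₀ t₀ : ℕ}
    {M₀ : Set (W → Bool)} (h₀ : Cs B' a₀ t₀ M₀) (hb : ∀ b ∈ B, b ∘ φ ∈ M₀ ∨ b ∘ φ ∈ B')
    {a t : ℕ} {M : Set (V → Bool)} (h : Cs B a t M) :
    Cs B' (a₀ + a) (t₀ + t) (M₀ ∪ (· ∘ φ) '' M) := by
  obtain ⟨l₀, a₁, t₁, h1, h2, h3, h4⟩ := h₀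
  obtain ⟨l, a₂, t₂, g1, g2, g3, g4⟩ := h
  have hb' : ∀ b ∈ B, b ∘ φ ∈ l₀ ∨ b ∘ φ ∈ B' := by
    intro b hbB
    rcases hb b hbB with h | h
    · exact h4 _ h
    · exact Or.inr h
  refine ⟨_, _, _, SLP.comp φ h1 hb' g1, by omega, by omega, ?_⟩
  rintro f (hf | ⟨g, hg, rfl⟩)
  · rcases h4 f hf with h | h
    · exact Or.inl (List.mem_append_right _ h)
    · exact Or.inr h
  · rcases g4 g hg with h | h
    · exact Or.inl (List.mem_append_left _ (List.mem_map.2 ⟨g, h, rfl⟩))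
    · rcases hb' g h with h | h
      · exact Or.inl (List.mem_append_right _ h)
      · exact Or.inr h

/-- Continuation. -/
theorem Cs.trans {B : Set (V → Bool)} {a t : ℕ} {M : Set (V → Bool)} (h₀ : Cs B a t M)
    {a' t' : ℕ} {M' : Set (V → Bool)} (h : Cs (B ∪ M) a' t' M') :
    Cs B (a + a') (t + t') (M ∪ M') := by
  have h1 := Cs.comp (B := B ∪ M) (fun x : V => x) h₀ (fun b hb => hb.symm) h
  refine h1.mono le_rfl le_rfl ?_
  rintro f (hf | hf)
  · exact Or.inl hf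
  · exact Or.inr ⟨f, hf, rfl⟩

theorem Cs.weaken {B B' : Set (V → Bool)} (hB : B ⊆ B') {a t : ℕ} {M : Set (V → Bool)}
    (h : Cs B a t M) : Cs B' a t M := by
  have h1 := Cs.comp (B := B) (B' := B') (fun x : V => x) (Cs.base (Set.empty_subset B'))
    (fun b hb => Or.inr (hB hb)) h
  refine h1.mono (by omega) (by omega) ?_
  intro f hf
  exact Or.inr ⟨f, hf, rfl⟩

theorem Cs.union {B : Set (V → Bool)} {a t a' t' : ℕ} {M M' : Set (V → Bool)} (h : Cs B a t M)
    (h' : Cs B a' t' M') : Cs B (a + a') (t + t') (M ∪ M') :=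
  h.trans (h'.weaken Set.subset_union_left)

theorem Cs.and {B : Set (V → Bool)} {a t : ℕ} {M : Set (V → Bool)} (h : Cs B a t M)
    {f g : V → Bool} (hf : f ∈ M ∨ f ∈ B) (hg : g ∈ M ∨ g ∈ B) :
    Cs B (a + 1) t (insert (fun x => f x && g x) M) := by
  obtain ⟨l, a₁, t₁, h1, h2, h3, h4⟩ := h
  have av : ∀ f, (f ∈ M ∨ f ∈ B) → f ∈ l ∨ f ∈ B := fun f hf => hf.elim (h4 f) Or.inr
  refine ⟨_, _, _, SLP.and _ _ _ _ _ h1 (av f hf) (av g hg), by omega, h3, ?_⟩
  rintro f' (rfl | hf')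
  · exact Or.inl List.mem_cons_self
  · exact (h4 f' hf').imp_left (List.mem_cons_of_mem _)

theorem Cs.or {B : Set (V → Bool)} {a t : ℕ} {M : Set (V → Bool)} (h : Cs B a t M)
    {f g : V → Bool} (hf : f ∈ M ∨ f ∈ B) (hg : g ∈ M ∨ g ∈ B) :
    Cs B (a + 1) t (insert (fun x => f x || g x) M) := by
  obtain ⟨l, a₁, t₁, h1, h2, h3, h4⟩ := h
  have av : ∀ f, (f ∈ M ∨ f ∈ B) → f ∈ l ∨ f ∈ B := fun f hf => hf.elim (h4 f) Or.inr
  refine ⟨_, _, _, SLP.or _ _ _ _ _ h1 (av f hf) (av g hg), by omega, h3, ?_⟩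
  rintro f' (rfl | hf')
  · exact Or.inl List.mem_cons_self
  · exact (h4 f' hf').imp_left (List.mem_cons_of_mem _)

theorem Cs.not {B : Set (V → Bool)} {a t : ℕ} {M : Set (V → Bool)} (h : Cs B a t M)
    {f : V → Bool} (hf : f ∈ M ∨ f ∈ B) :
    Cs B a (t + 1) (insert (fun x => !f x) M) := by
  obtain ⟨l, a₁, t₁, h1, h2, h3, h4⟩ := h
  have av : ∀ f, (f ∈ M ∨ f ∈ B) → f ∈ l ∨ f ∈ B := fun f hf => hf.elim (h4 f) Or.inr
  refine ⟨_, _, _, SLP.not _ _ _ _ h1 (av f hf), h2, by omega, ?_⟩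
  rintro f' (rfl | hf')
  · exact Or.inl List.mem_cons_self
  · exact (h4 f' hf').imp_left (List.mem_cons_of_mem _)

/-- Families. -/
theorem Cs.family {B : Set (V → Bool)} {c : ℕ} {F : ℕ → V → Bool} (n : ℕ)
    (h : ∀ i < n, Cs B c 0 {F i}) : Cs B (n * c) 0 {f | ∃ i < n, f = F i} := by
  induction n with
  | zero =>
    refine (Cs.base (Set.empty_subset B)).mono (Nat.zero_le _) le_rfl ?_
    rintro f ⟨i, hi, _⟩
    omega
  | succ n ih =>
    have h1 := (ih (fun i hi => h i (by omega))).union (h n (by omega))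
    refine h1.mono (by rw [Nat.succ_mul]) le_rfl ?_
    rintro f ⟨i, hi, rfl⟩
    rcases Nat.lt_succ_iff_lt_or_eq.1 hi with h | h
    · exact Or.inl ⟨i, h, rfl⟩
    · subst h
      exact Or.inr rfl

/-- Functions computed without NOT gates from monotone functions are monotone. -/
theorem SLP.monotone [Preorder V] {B : Set (V → Bool)} (hB : ∀ f ∈ B, Monotone f) {a t : ℕ}
    {l : List (V → Bool)} (h : SLP B a t l) (ht : t = 0) : ∀ f ∈ l, Monotone f := by
  induction h with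
  | nil => simp
  | not a t l f h hf ih => omega
  | and a t l f g h hf hg ih =>
    intro f' hf'
    rcases List.mem_cons.1 hf' with rfl | hf'
    · have h1 : Monotone f := hf.elim (ih ht f) (hB f)
      have h2 : Monotone g := hg.elim (ih ht g) (hB g)
      intro x y hxy
      have e1 := h1 hxy
      have e2 := h2 hxy
      show (f x && g x) ≤ (f y && g y)
      revert e1 e2
      cases f x <;> cases f y <;> cases g x <;> cases g y <;> simp
    · exact ih ht f' hf'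
  | or a t l f g h hf hg ih =>
    intro f' hf'
    rcases List.mem_cons.1 hf' with rfl | hf'
    · have h1 : Monotone f := hf.elim (ih ht f) (hB f)
      have h2 : Monotone g := hg.elim (ih ht g) (hB g)
      intro x y hxy
      have e1 := h1 hxy
      have e2 := h2 hxy
      show (f x || g x) ≤ (f y || g y)
      revert e1 e2
      cases f x <;> cases f y <;> cases g x <;> cases g y <;> simp
    · exact ih ht f' hf'

end Pool.Agent.W954.Sav
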