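import Pool.Agent.NPC.Dec
import Pool.Agent.H671R2.PolyAuto
import Pool.Agent.H622R2.CoNP

/-!
# Search to decision if `P = NP`
-/

set_option autoImplicit false

namespace Pool.Agent.W954.Sav

open Pool.Agent.NPC

theorem poly_bits {α : Type} [TEnc α] {β : Type} [TEnc β] {f : β → α} (hf : Poly f) :
    Poly (fun a => bits (f a)) := by
  have h1 : PC (bits : β → List Bool) (bits : List Bool → List Bool) (fun b => bits (f b)) := by
    refine (PC.comp (g := fun x : List Bool => x) (f := fun b => bits (f b)) (eb := fun x => x)
      PC.rawIn ?_)
    exact hf
  exact h1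

/-- A decision problem in `P` has a typed polynomial-time test. -/
theorem exists_typed_test {α : Type} [TEnc α] {P : α → Prop} (h : InPP P) :
    ∃ e : α → Bool, Poly e ∧ ∀ a, e a = true ↔ P a := by
  obtain ⟨V, hV, hP⟩ := h.exists_test
  refine ⟨fun a => decide (V (bits a) = [true]), ?_, fun a => ?_⟩
  · exact Poly.decide_eq ((H622R2.poly_of_polyTime hV).comp (poly_bits Poly.id)) (NPC.Poly.const _)
  · rw [decide_eq_true_iff, ← hP]

theorem upoly_le {α : Type} [TEnc α] {B : α → ℕ} (hB : UPoly B) : ∃ q : Polynomial ℕ, ∀ a, B a ≤ q.eval (sz a) := by
  obtain ⟨q, hq⟩ := Poly.sz_le hB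
  refine ⟨q, fun a => ?_⟩
  have h1 := length_lt_sz (List.replicate (B a) ())
  rw [List.length_replicate] at h1
  exact h1.le.trans (hq a)

/-- one step of the search -/
def stepS {α : Type} (R e : α × List Bool → Bool) (a : α) (u : List Bool) : List Bool :=
  if R (a, u) then u else if e (a, u ++ [true]) then u ++ [true] else u ++ [false]

theorem stepS_length {α : Type} (R e : α × List Bool → Bool) (a : α) (u : List Bool) :
    (stepS R e a u).length ≤ u.length + 1 := by
  unfold stepS
  split_ifs <;> simp

theorem iter_length {α : Type} (R e : α × List Bool → Bool) (a : α) (k : ℕ) :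
    ((stepS R e a)^[k] []).length ≤ k := by
  induction k with
  | zero => simp
  | succ k ih =>
    rw [Function.iterate_succ_apply']
    exact (stepS_length R e a _).trans (by omega)

/-- **Search to decision.** -/
theorem search {α : Type} [TEnc α] [TDec α] (hPNP : ∀ L, InNP L → InP L) {R : α × List Bool → Bool} (hR : Poly R) {B : α → ℕ}
    (hB : UPoly B) : ∃ F : α → List Bool, Poly F ∧
      ∀ a, (∃ w : List Bool, w.length ≤ B a ∧ R (a, w) = true) → R (a, F a) = true := by
  obtain ⟨q, hq⟩ := upoly_le hB
  have hE : InNPP (fun z : α × List Bool => ∃ v : List Bool,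
      (z.2 ++ v).length ≤ B z.1 ∧ R (z.1, z.2 ++ v) = true) := by
    refine inNPP_of (β := List Bool) (R := fun z : (α × List Bool) × List Bool =>
      decide ((z.1.2 ++ z.2).length ≤ B z.1.1) && R (z.1.1, z.1.2 ++ z.2)) ?_
      (Polynomial.C 4 * q + 1) (fun z => ?_)
    · have h1 : Poly (fun z : (α × List Bool) × List Bool => B z.1.1) :=
        (hB.comp (Poly.fst (Poly.fst Poly.id))).toPoly
      have h2 : Poly (fun z : (α × List Bool) × List Bool => R (z.1.1, z.1.2 ++ z.2)) :=
        hR.comp (by fun_prop)
      exact Poly.and (Poly.decide_le (by fun_prop) h1) h2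
    · constructor
      · rintro ⟨v, h1, h2⟩
        refine ⟨v, ?_, by simp only [h2, Bool.and_true, decide_eq_true_eq]; exact h1⟩
        have h3 := sz_listBool_le v
        have h4 := hq z.1
        have h5 : q.eval (sz z.1) ≤ q.eval (sz z) := by
          refine eval_mono q ?_
          have := sz_pair z.1 z.2
          have e : sz z = sz (z.1, z.2) := rfl
          omega
        rw [List.length_append] at h1
        simp only [Polynomial.eval_add, Polynomial.eval_mul, Polynomial.eval_C,
          Polynomial.eval_one]
        omega
      · rintro ⟨v, -, h2⟩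
        rw [Bool.and_eq_true, decide_eq_true_iff] at h2
        exact ⟨v, h2.1, h2.2⟩
  obtain ⟨e, he, hee⟩ := exists_typed_test (hPNP _ hE)
  refine ⟨fun a => (stepS R e a)^[B a] [], ?_, fun a ha => ?_⟩
  · have h1 : Poly (fun p : α × List Bool => stepS R e p.1 p.2) := by
      unfold stepS
      refine Poly.ite (Poly.decide_bool (hR.comp (by fun_prop))) (by fun_prop)
        (Poly.ite (Poly.decide_bool (he.comp (by fun_prop))) (by fun_prop) (by fun_prop))
    have h2 := Poly.iterLen (l := fun a => List.replicate (B a) ()) (s := fun _ : α => [])
      (F := stepS R e) hB (NPC.Poly.const _) h1 (Polynomial.C 4 * q + 1) (by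
        intro a k hk
        rw [List.length_replicate] at hk
        have h3 := iter_length R e a k
        have h4 := sz_listBool_le ((stepS R e a)^[k] [])
        have h5 := hq a
        simp only [Polynomial.eval_add, Polynomial.eval_mul, Polynomial.eval_C,
          Polynomial.eval_one]
        omega)
    refine h2.congr fun a => ?_
    rw [List.length_replicate]
  · have inv : ∀ k, (∃ v : List Bool, (((stepS R e a)^[k] []) ++ v).length ≤ B a ∧
        R (a, ((stepS R e a)^[k] []) ++ v) = true) ∧
        (R (a, (stepS R e a)^[k] []) = true ∨ ((stepS R e a)^[k] []).length = k) := by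
      intro k
      induction k with
      | zero =>
        obtain ⟨w, h1, h2⟩ := ha
        exact ⟨⟨w, by simpa using h1, by simpa using h2⟩, Or.inr rfl⟩
      | succ k ih =>
        rw [Function.iterate_succ_apply']
        set u := (stepS R e a)^[k] [] with hu
        obtain ⟨⟨v, h1, h2⟩, h3⟩ := ih
        by_cases hRu : R (a, u) = true
        · have : stepS R e a u = u := by simp [stepS, hRu]
          rw [this]
          exact ⟨⟨v, h1, h2⟩, Or.inl hRu⟩
        · have hlen : u.length = k := h3.resolve_left hRu
          by_cases heu : e (a, u ++ [true]) = true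
          · have hs : stepS R e a u = u ++ [true] := by simp [stepS, hRu, heu]
            rw [hs]
            exact ⟨(hee _).1 heu, Or.inr (by simp [hlen])⟩
          · have hs : stepS R e a u = u ++ [false] := by simp [stepS, hRu, heu]
            rw [hs]
            refine ⟨?_, Or.inr (by simp [hlen])⟩
            cases v with
            | nil =>
              exfalso
              apply hRu
              simpa using h2
            | cons b v =>
              cases b with
              | true =>
                exfalso
                apply heu
                rw [hee]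
                exact ⟨v, by simpa using h1, by simpa using h2⟩
              | false => exact ⟨v, by simpa using h1, by simpa using h2⟩
    obtain ⟨⟨v, h1, h2⟩, h3⟩ := inv (B a)
    rcases h3 with h3 | h3
    · exact h3
    · rw [List.length_append, h3] at h1
      have : v = [] := List.length_eq_zero_iff.1 (by omega)
      subst this
      simpa using h2

end Pool.Agent.W954.Sav
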