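import Pool.Agent.W954.Sav.Eval
import Pool.Agent.H547R8.T_CKT

/-!
# `P = NP` and circuits with few NOT gates for monotone languages
-/

set_option autoImplicit false

namespace Pool.Agent.W954.Sav

open Pool.Agent.NPC

open Classical in
/-- The Boolean function of a language for inputs of length `n`. -/
noncomputable def lf (L : Set (List Bool)) (n : ℕ) (x : Fin n → Bool) : Bool :=
  decide (List.ofFn x ∈ L)

theorem lf_iff (L : Set (List Bool)) (n : ℕ) (x : Fin n → Bool) :
    lf L n x = true ↔ List.ofFn x ∈ L := by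
  classical
  unfold lf
  rw [decide_eq_true_iff]

/-- From the circuits of `H547R7`. -/
theorem aon_slp {n s : ℕ} {l : List (H547R7.BF n)} (h : H547R7.AON n s l) :
    ∃ u, SLP (Inp n) s u l := by
  have av : ∀ (l : List (H547R7.BF n)) (f : H547R7.BF n), H547R7.Avail l f →
      f ∈ l ∨ f ∈ Inp n := by
    rintro l f (hf | ⟨i, hi⟩)
    · exact Or.inl hf
    · exact Or.inr (Or.inl ⟨i, hi⟩)
  induction h with
  | nil => exact ⟨0, SLP.nil⟩
  | not s l a h ha ih =>
    obtain ⟨u, hu⟩ := ih
    exact ⟨u + 1, SLP.not _ _ _ _ hu (av l a ha)⟩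
  | and s l a b h ha hb ih =>
    obtain ⟨u, hu⟩ := ih
    exact ⟨u, SLP.and _ _ _ _ _ hu (av l a ha) (av l b hb)⟩
  | or s l a b h ha hb ih =>
    obtain ⟨u, hu⟩ := ih
    exact ⟨u, SLP.or _ _ _ _ _ hu (av l a ha) (av l b hb)⟩

theorem poly_unpair_snd : PolyTime (fun y => (unpair y).2) :=
  H622R2.polyTime_of_poly_list (Poly.snd poly_unpair)

/-- Languages in `P` have polynomial-size circuits. -/
theorem inP_circuits {L : Set (List Bool)} (hL : InP L) :
    ∃ q : Polynomial ℕ, ∀ n, ∃ u, Cs (Inp n) (q.eval n) u {lf L n} := by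
  obtain ⟨V, hV, hVL⟩ := hL
  have hV' : PolyTime (fun y => V (unpair y).2) :=
    H622R2.polyTime_of_poly_list ((H622R2.poly_of_polyTime hV).comp (Poly.snd poly_unpair))
  obtain ⟨q, hq⟩ := H547R8.t_CKT H547R8.t_LAY _ hV' (Polynomial.X + 1) (fun m => by simp)
  refine ⟨q, fun n => ?_⟩
  cases n with
  | zero =>
    refine ⟨0, (Cs.base (B := Inp 0) (M := {lf L 0}) ?_).mono (Nat.zero_le _) le_rfl le_rfl⟩
    rintro f rfl
    refine Or.inr ⟨lf L 0 (fun i => false), ?_⟩
    funext x
    congr 1
    funext i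
    exact i.elim0
  | succ n =>
    have h0 := hq (List.replicate n false)
    rw [List.length_replicate, show (Polynomial.X + 1 : Polynomial ℕ).eval n = n + 1 by simp] at h0
    obtain ⟨l, s', h1, h2, h3⟩ := h0
    obtain ⟨u, hu⟩ := aon_slp h1
    refine ⟨u, l, s', u, hu, h2.trans (eval_mono q (by omega)), le_rfl, ?_⟩
    rintro f rfl
    have h4 : lf L (n + 1) = H547R8.acc (fun y => V (unpair y).2) (List.replicate n false)
        (n + 1) := by
      funext x
      rw [Bool.eq_iff_iff, lf_iff]
      simp only [H547R8.acc, unpair_pairBits, decide_eq_true_eq]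
      exact hVL _
    rw [h4]
    rcases h3 with h3 | ⟨i, hi⟩
    · exact Or.inl h3
    · exact Or.inr (Or.inl ⟨i, hi⟩)

/-- Polynomial-size circuits with few NOT gates on windows. -/
theorem exists_small {L : Set (List Bool)} (hm : ∀ n, Monotone (lf L n)) (k : ℕ)
    {q : Polynomial ℕ} (hq : ∀ n, ∃ u, Cs (Inp n) (q.eval n) u {lf L n}) :
    ∃ r : Polynomial ℕ, ∀ n m t, ∃ C : Circuit n, C.size ≤ r.eval n ∧ C.nots ≤ t ∧
      (∀ g ∈ C.gates, g.1 ≤ 2) ∧
      ∀ x, m ≤ wt x → wt x < m + (k + 1) * 2 ^ t → C.eval x = lf L n x := by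
  refine ⟨Polynomial.C 2 * (Polynomial.X + 1) * ((Polynomial.X + 1) ^ k *
    (Polynomial.C 2 * q + Polynomial.C 2 * (Polynomial.X + 1) ^ 3) + Polynomial.C 5) +
    Polynomial.C 2 * Polynomial.X ^ 2 + (Polynomial.X + 1), fun n m t => ?_⟩
  obtain ⟨u, hu⟩ := hq n
  set t' := min t (Nat.clog 2 (n + 1)) with ht'
  obtain ⟨C, h1, h2, h3, h4⟩ := (few_nots (hm n) hu m k t').circuit
  have e1 : Nat.clog 2 (n + 1) ≤ n + 1 :=
    Nat.clog_le_of_le_pow (Nat.lt_two_pow_self).le
  have e2 : 2 ^ Nat.clog 2 (n + 1) ≤ 2 * (n + 1) := by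
    rcases Nat.eq_zero_or_pos n with rfl | hn
    · simp
    · have := Nat.pow_pred_clog_lt_self (b := 2) (by norm_num) (show 1 < n + 1 by omega)
      have e3 : 0 < Nat.clog 2 (n + 1) := Nat.clog_pos (by norm_num) (by omega)
      obtain ⟨c, hc⟩ : ∃ c, Nat.clog 2 (n + 1) = c + 1 := ⟨Nat.clog 2 (n + 1) - 1, by omega⟩
      rw [hc] at this ⊢
      rw [Nat.pred_succ] at this
      rw [pow_succ]
      omega
  have e4 : 2 ^ t' ≤ 2 * (n + 1) :=
    (Nat.pow_le_pow_right (by norm_num) (min_le_right _ _)).trans e2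
  refine ⟨C, ?_, h2.trans (min_le_left _ _), h4, fun x hx1 hx2 => ?_⟩
  · refine h1.trans ?_
    simp only [Polynomial.eval_add, Polynomial.eval_mul, Polynomial.eval_C, Polynomial.eval_one,
      Polynomial.eval_pow, Polynomial.eval_X]
    have e5 : t' ≤ n + 1 := (min_le_right _ _).trans e1
    have e6 : 2 ^ t' * ((n + 1) ^ k * (2 * q.eval n + 2 * (n + 1) ^ 3) + 5) ≤
        2 * (n + 1) * ((n + 1) ^ k * (2 * q.eval n + 2 * (n + 1) ^ 3) + 5) :=
      Nat.mul_le_mul_right _ e4
    omega
  · rw [h3]
    have e7 : ¬ m + (k + 1) * 2 ^ t' ≤ wt x := by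
      rcases le_total t (Nat.clog 2 (n + 1)) with h | h
      · rw [ht', min_eq_left h]
        omega
      · rw [ht', min_eq_right h]
        have e8 : n + 1 ≤ 2 ^ Nat.clog 2 (n + 1) := Nat.le_pow_clog (by norm_num) _
        have e9 := wt_le x
        nlinarith
    unfold Win
    simp [hx1, e7]

theorem nat_size_le (n : ℕ) : n.size ≤ n := Nat.size_le.2 Nat.lt_two_pow_self

theorem length_desc {n : ℕ} (C : Circuit n) (h2 : ∀ g ∈ C.gates, g.1 ≤ 2) :
    C.desc.length ≤ C.size * (8 * (n + 2 + C.size) + 20) + 4 * (n + 2 + C.size) + 5 := by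
  unfold Circuit.desc
  rw [bits_length, sz_pair]
  have h1 : sz C.gates ≤ C.gates.length * ((8 * (n + 2 + C.size) + 19) + 1) + 1 := by
    refine sz_le_length_mul _ _ ?_
    intro g hg
    obtain ⟨j, hj⟩ := List.mem_iff_getElem?.1 hg
    have h3 := C.wf j g hj
    have h4 : j < C.gates.length := by
      by_contra hcon
      rw [List.getElem?_eq_none (by omega)] at hj
      cases hj
    have h5 : C.size = C.gates.length := rfl
    obtain ⟨c, a, b⟩ := g
    have h6 : c ≤ 2 := h2 _ hg
    rw [sz_pair, sz_pair]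
    have k1 := sz_nat_le c
    have k2 := sz_nat_le a
    have k3 := sz_nat_le b
    have k4 := nat_size_le c
    have k5 := nat_size_le a
    have k6 := nat_size_le b
    simp only at h3
    omega
  have h3 := sz_nat_le C.out
  have h4 := nat_size_le C.out
  have h5 := C.out_lt
  have h6 : C.size = C.gates.length := rfl
  have h7 : C.gates.length * ((8 * (n + 2 + C.size) + 19) + 1) =
      C.size * (8 * (n + 2 + C.size) + 20) := by rw [h6]
  omega

/-- The triples of numbers in unary. -/
abbrev Idx : Type := List Unit × List Unit × List Unit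

/-- the certificate relation for errors -/
def errT (k : ℕ) (h : List Bool → Bool) (z : (Idx × (List Gate × ℕ)) × List Bool) : Bool :=
  decide (z.2.length = z.1.1.1.length) && (decide (z.1.1.2.1.length ≤ ones z.2) &&
    (decide (ones z.2 < z.1.1.2.1.length + (k + 1) * 2 ^ z.1.1.2.2.length) &&
      (evalD z.1.2 z.2 ^^ h z.2)))

theorem poly_two_pow {α : Type} [TEnc α] {t : α → List Unit} (ht : Poly t) :
    Poly (fun a => 2 ^ (t a).length) := by
  have h1 : Poly (fun a => List.map (fun _ => false) (t a)) := by fun_prop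
  have h2 : Poly (fun a => valB (List.map (fun _ => false) (t a) ++ [true])) :=
    Poly.valBits (Poly.append h1 (NPC.Poly.const _))
  refine h2.congr fun a => ?_
  rw [two_pow_eq]
  congr 2
  rw [List.map_const']

theorem poly_errT (k : ℕ) {h : List Bool → Bool} (hh : Poly h) : Poly (errT k h) := by
  unfold errT
  have h1 : Poly (fun z : (Idx × (List Gate × ℕ)) × List Bool => ones z.2) :=
    poly_ones (by fun_prop)
  have h2 : Poly (fun z : (Idx × (List Gate × ℕ)) × List Bool => 2 ^ z.1.1.2.2.length) :=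
    poly_two_pow (by fun_prop)
  have h3 : Poly (fun z : (Idx × (List Gate × ℕ)) × List Bool => evalD z.1.2 z.2) :=
    poly_evalD (by fun_prop) (by fun_prop)
  have h4 : Poly (fun z : (Idx × (List Gate × ℕ)) × List Bool => h z.2) := hh.comp (by fun_prop)
  refine Poly.and (Poly.decide_eq (by fun_prop) (by fun_prop)) (Poly.and
    (Poly.decide_le (by fun_prop) h1) (Poly.and (Poly.decide_lt h1 ?_) (Poly.xor h3 h4)))
  exact Poly.add (by fun_prop) (Poly.mul (NPC.Poly.const _) h2)

/-- the test of the description of a circuit -/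
def goodT (b : Idx × (List Gate × ℕ) → Bool) (z : Idx × List Bool) : Bool :=
  (unbits (List Gate × ℕ) z.2).elim false fun D =>
    wfT z.1.1.length D && (decide ((D.1.filter fun g => g.1 = 0).length ≤ z.1.2.2.length) &&
      !b (z.1, D))

theorem poly_goodT {b : Idx × (List Gate × ℕ) → Bool} (hb : Poly b) : Poly (goodT b) := by
  unfold goodT
  refine NPC.Poly.optElim (h := fun (z : Idx × List Bool) (D : List Gate × ℕ) =>
    wfT z.1.1.length D && (decide ((D.1.filter fun g => g.1 = 0).length ≤ z.1.2.2.length) &&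
      !b (z.1, D))) (poly_unbits.comp (by fun_prop)) (NPC.Poly.const _) ?_
  refine Poly.and (poly_wfT.comp
    (f := fun z : (Idx × List Bool) × (List Gate × ℕ) => (z.1.1.1.length, z.2)) (by fun_prop))
    (Poly.and (by fun_prop) (Poly.not (hb.comp
      (f := fun z : (Idx × List Bool) × (List Gate × ℕ) => (z.1.1, z.2)) (by fun_prop))))

/-- **The uniform theorem.** -/
theorem uniform_windows (hPNP : ∀ L, InNP L → InP L) {L : Set (List Bool)} (hL : InP L)
    (hm : ∀ n, Monotone (lf L n)) (k : ℕ) :
    ∃ F : Idx → List Bool, Poly F ∧ ∀ n m t, ∃ C : Circuit n,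
      F (List.replicate n (), List.replicate m (), List.replicate t ()) = C.desc ∧
      C.nots ≤ t ∧
      ∀ x, m ≤ wt x → wt x < m + (k + 1) * 2 ^ t → (C.eval x = true ↔ List.ofFn x ∈ L) := by
  obtain ⟨q, hq⟩ := inP_circuits hL
  obtain ⟨r, hr⟩ := exists_small hm k hq
  obtain ⟨V, hV, hVL⟩ := hL
  set h : List Bool → Bool := fun x => decide (V x = [true]) with hh
  have hhp : Poly h := Poly.decide_eq (H622R2.poly_of_polyTime hV) (NPC.Poly.const _)
  have hhL : ∀ x, h x = true ↔ x ∈ L := fun x => by
    rw [hh]; simp only [decide_eq_true_eq]; exact (hVL x).symm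
  have hErr : InNPP (fun z : Idx × (List Gate × ℕ) => ∃ x : List Bool,
      errT k h (z, x) = true) := by
    refine inNPP_of (β := List Bool) (poly_errT k hhp) (Polynomial.C 4 * Polynomial.X + 1)
      (fun z => ?_)
    constructor
    · rintro ⟨x, hx⟩
      refine ⟨x, ?_, hx⟩
      unfold errT at hx
      simp only [Bool.and_eq_true, decide_eq_true_eq] at hx
      have e1 := sz_listBool_le x
      have e2 := length_lt_sz z.1.1
      have e3 : sz z = sz z.1.1 + sz z.1.2 + 1 + sz z.2 + 1 := by
        have e4 : z = ((z.1.1, z.1.2), z.2) := rfl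
        conv_lhs => rw [e4]
        rw [sz_pair, sz_pair]
      simp only [Polynomial.eval_add, Polynomial.eval_mul, Polynomial.eval_C,
        Polynomial.eval_one, Polynomial.eval_X]
      omega
    · rintro ⟨x, -, hx⟩
      exact ⟨x, hx⟩
  obtain ⟨b, hb, hbe⟩ := exists_typed_test (hPNP _ hErr)
  set R : Polynomial ℕ := r * (Polynomial.C 8 * (Polynomial.X + Polynomial.C 2 + r) +
    Polynomial.C 20) + Polynomial.C 4 * (Polynomial.X + Polynomial.C 2 + r) + Polynomial.C 5 with hR
  have hB : UPoly (fun i : Idx => R.eval i.1.length) :=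
    UPoly.eval (UPoly.length (Poly.fst Poly.id)) R
  obtain ⟨F, hF, hFg⟩ := search hPNP (poly_goodT hb) hB
  refine ⟨F, hF, fun n m t => ?_⟩
  set i : Idx := (List.replicate n (), List.replicate m (), List.replicate t ()) with hi
  have hex : ∃ w : List Bool, w.length ≤ R.eval i.1.length ∧ goodT b (i, w) = true := by
    obtain ⟨C, h1, h2, h3, h4⟩ := hr n m t
    refine ⟨C.desc, ?_, ?_⟩
    · refine (length_desc C h3).trans ?_
      have e1 : i.1.length = n := by simp [hi]
      rw [e1, hR]
      simp only [Polynomial.eval_add, Polynomial.eval_mul, Polynomial.eval_C, Polynomial.eval_X]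
      have e2 : C.size * (8 * (n + 2 + C.size) + 20) ≤
          r.eval n * (8 * (n + 2 + r.eval n) + 20) :=
        Nat.mul_le_mul h1 (by omega)
      omega
    · have e1 : unbits (List Gate × ℕ) C.desc = some (C.gates, C.out) := unbits_bits _
      unfold goodT
      rw [show ((i, C.desc) : Idx × List Bool).2 = C.desc from rfl, e1]
      simp only [Option.elim_some, Bool.and_eq_true, decide_eq_true_eq, Bool.not_eq_true']
      refine ⟨?_, ?_, ?_⟩
      · rw [wfT_iff]
        have e2 : i.1.length = n := by simp [hi]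
        rw [e2]
        exact ⟨C.wf, C.out_lt⟩
      · have e2 : i.2.2.length = t := by simp [hi]
        rw [e2]
        exact h2
      · rw [← Bool.not_eq_true, hbe]
        rintro ⟨x, hx⟩
        unfold errT at hx
        simp only [Bool.and_eq_true, decide_eq_true_eq, hi, List.length_replicate] at hx
        obtain ⟨g1, g2, g3, g4⟩ := hx
        obtain ⟨y, rfl⟩ : ∃ y : Fin n → Bool, x = List.ofFn y :=
          ⟨fun j => x[j.val]'(by omega), by
            apply List.ext_getElem
            · simp [g1]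
            · intro a b c; simp⟩
        rw [ones_ofFn] at g2 g3
        have g5 := h4 y g2 g3
        have g6 : evalD (C.gates, C.out) (List.ofFn y) = C.eval y := rfl
        have g7 : h (List.ofFn y) = lf L n y := by
          rw [Bool.eq_iff_iff, hhL, lf_iff]
        rw [g6, g7, g5] at g4
        simp at g4
  have hgood := hFg i hex
  unfold goodT at hgood
  cases hun : unbits (List Gate × ℕ) (F i) with
  | none =>
    rw [show ((i, F i) : Idx × List Bool).2 = F i from rfl, hun] at hgood
    simp at hgood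
  | some D =>
    rw [show ((i, F i) : Idx × List Bool).2 = F i from rfl, hun] at hgood
    simp only [Option.elim_some, Bool.and_eq_true, decide_eq_true_eq, Bool.not_eq_true'] at hgood
    obtain ⟨h1, h2, h3⟩ := hgood
    rw [wfT_iff] at h1
    have e2 : i.1.length = n := by simp [hi]
    have e3 : i.2.2.length = t := by simp [hi]
    rw [e2] at h1
    rw [e3] at h2
    refine ⟨⟨D.1, D.2, h1.1, h1.2⟩, ?_, h2, fun x hx1 hx2 => ?_⟩
    · exact (bits_of_unbits hun).symm
    · rw [← Bool.not_eq_true, hbe] at h3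
      by_contra hcon
      apply h3
      refine ⟨List.ofFn x, ?_⟩
      unfold errT
      simp only [Bool.and_eq_true, decide_eq_true_eq, hi, List.length_replicate,
        List.length_ofFn, ones_ofFn]
      refine ⟨trivial, hx1, hx2, ?_⟩
      have g6 : evalD D (List.ofFn x) = (⟨D.1, D.2, h1.1, h1.2⟩ : Circuit n).eval x := rfl
      rw [g6]
      have g7 := hhL (List.ofFn x)
      revert hcon g7
      cases (⟨D.1, D.2, h1.1, h1.2⟩ : Circuit n).eval x <;> cases h (List.ofFn x) <;>
        simp_all

end Pool.Agent.W954.Sav
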