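import Pool.Agent.W954.Sav.SLP
import Pool.Agent.W954.Sav.Defs

/-!
# Monotone simulation of circuits for monotone functions on few consecutive slices
-/

set_option autoImplicit false

namespace Pool.Agent.W954.Sav

variable {n : ℕ}

/-- The variables and the constants. -/
def Inp (n : ℕ) : Set ((Fin n → Bool) → Bool) :=
  {f | (∃ i, f = fun x => x i) ∨ ∃ b : Bool, f = fun _ => b}

/-- The number of ones among the first `j` bits. -/
def pre {n : ℕ} (j : ℕ) (x : Fin n → Bool) : ℕ :=
  (Finset.univ.filter fun i : Fin n => i.val < j ∧ x i = true).card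

theorem pre_zero (x : Fin n → Bool) : pre 0 x = 0 := by
  unfold pre
  rw [Finset.card_eq_zero, Finset.filter_eq_empty_iff]
  intro i _ h
  omega

theorem pre_n (x : Fin n → Bool) : pre n x = wt x := by
  unfold pre wt
  congr 1
  ext i
  simp

theorem pre_le (j : ℕ) (x : Fin n → Bool) : pre j x ≤ n := by
  unfold pre
  exact (Finset.card_le_univ _).trans (by simp)

theorem wt_le (x : Fin n → Bool) : wt x ≤ n := by
  rw [← pre_n]; exact pre_le n x

theorem pre_succ (j : ℕ) (hj : j < n) (x : Fin n → Bool) :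
    pre (j + 1) x = pre j x + (if x ⟨j, hj⟩ = true then 1 else 0) := by
  unfold pre
  by_cases hx : x ⟨j, hj⟩ = true
  · rw [if_pos hx]
    have : (Finset.univ.filter fun i : Fin n => i.val < j + 1 ∧ x i = true) =
        insert ⟨j, hj⟩ (Finset.univ.filter fun i : Fin n => i.val < j ∧ x i = true) := by
      ext i
      simp only [Finset.mem_filter, Finset.mem_univ, true_and, Finset.mem_insert]
      constructor
      · rintro ⟨h1, h2⟩
        rcases Nat.lt_succ_iff_lt_or_eq.1 h1 with h | h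
        · exact Or.inr ⟨h, h2⟩
        · exact Or.inl (Fin.ext h)
      · rintro (h | ⟨h1, h2⟩)
        · subst h
          exact ⟨Nat.lt_succ_self _, hx⟩
        · exact ⟨by omega, h2⟩
    rw [this, Finset.card_insert_of_notMem]
    simp
  · rw [if_neg hx, add_zero]
    congr 1
    ext i
    simp only [Finset.mem_filter, Finset.mem_univ, true_and]
    constructor
    · rintro ⟨h1, h2⟩
      refine ⟨?_, h2⟩
      rcases Nat.lt_succ_iff_lt_or_eq.1 h1 with h | h
      · exact h
      · exfalso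
        apply hx
        have : i = ⟨j, hj⟩ := Fin.ext h
        rw [← this]; exact h2
    · rintro ⟨h1, h2⟩
      exact ⟨by omega, h2⟩

/-- The threshold functions. -/
def Thr (n : ℕ) : Set ((Fin n → Bool) → Bool) := {f | ∃ m : ℕ, f = fun x => decide (m ≤ wt x)}

theorem thr_aux (j : ℕ) (hj : j ≤ n) :
    Cs (Inp n) (j * (n * 2)) 0 {f | ∃ m : ℕ, f = fun x => decide (m ≤ pre j x)} := by
  induction j with
  | zero =>
    refine (Cs.base (B := Inp n) (M := {f | ∃ m : ℕ, f = fun x => decide (m ≤ pre 0 x)}) ?_).mono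
      (Nat.zero_le _) le_rfl le_rfl
    rintro f ⟨m, rfl⟩
    refine Or.inr ⟨decide (m ≤ 0), ?_⟩
    funext x
    rw [pre_zero]
  | succ j ih =>
    have hj' : j < n := hj
    have h1 := ih (by omega)
    have h2 := Cs.family (B := Inp n ∪ {f | ∃ m : ℕ, f = fun x => decide (m ≤ pre j x)}) (c := 2)
      (F := fun i x => decide (i + 1 ≤ pre (j + 1) x)) n (by
        intro i hi
        have g0 : Cs (Inp n ∪ {f | ∃ m : ℕ, f = fun x => decide (m ≤ pre j x)}) 0 0 ∅ :=
          Cs.base (Set.empty_subset _)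
        have g1 := g0.and (f := fun x => decide (i ≤ pre j x)) (g := fun x => x ⟨j, hj'⟩)
          (Or.inr (Or.inr ⟨i, rfl⟩)) (Or.inr (Or.inl (Or.inl ⟨⟨j, hj'⟩, rfl⟩)))
        have g2 := g1.or (f := fun x => decide (i + 1 ≤ pre j x))
          (g := fun x => decide (i ≤ pre j x) && x ⟨j, hj'⟩)
          (Or.inr (Or.inr ⟨i + 1, rfl⟩)) (Or.inl (Set.mem_insert _ _))
        refine g2.mono le_rfl le_rfl ?_
        rintro f rfl
        left
        funext x
        rw [pre_succ j hj']
        by_cases hx : x ⟨j, hj'⟩ = true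
        · rw [if_pos hx, hx, Bool.and_true, Bool.eq_iff_iff, Bool.or_eq_true]
          simp only [decide_eq_true_eq]
          omega
        · have hx' : x ⟨j, hj'⟩ = false := by simpa using hx
          rw [if_neg hx, hx', Bool.and_false, Bool.or_false, add_zero])
    have h3 : Cs (Inp n) ((j + 1) * (n * 2)) 0
        ({f | ∃ m : ℕ, f = fun x => decide (m ≤ pre (j + 1) x)} \ Inp n) := by
      refine (h1.trans h2).mono (by rw [Nat.succ_mul]) le_rfl ?_
      rintro f ⟨⟨m, rfl⟩, hf⟩
      right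
      have hm0 : m ≠ 0 := by
        rintro rfl
        exact hf (Or.inr ⟨true, by funext x; simp⟩)
      have hmn : m ≤ n := by
        by_contra hcon
        refine hf (Or.inr ⟨false, ?_⟩)
        funext x
        have := pre_le (j + 1) x
        simp only [decide_eq_false_iff_not]
        omega
      exact ⟨m - 1, by omega, by funext x; rw [show m - 1 + 1 = m by omega]⟩
    obtain ⟨l, a, t, k1, k2, k3, k4⟩ := h3
    refine ⟨l, a, t, k1, k2, k3, fun f hf => ?_⟩
    by_cases hfB : f ∈ Inp n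
    · exact Or.inr hfB
    · exact k4 f ⟨hf, hfB⟩

theorem thr : Cs (Inp n) (2 * n ^ 2) 0 (Thr n) := by
  refine (thr_aux n le_rfl).mono (le_of_eq (by ring)) le_rfl ?_
  rintro f ⟨m, rfl⟩
  exact ⟨m, by funext x; rw [pre_n]⟩

/-! ### two rails -/

/-- The variables, separate variables for the negations, and the constants. -/
def Inp2 (n : ℕ) : Set ((Fin n → Bool) × (Fin n → Bool) → Bool) :=
  {f | (∃ i, f = fun p => p.1 i) ∨ (∃ i, f = fun p => p.2 i) ∨ ∃ b : Bool, f = fun _ => b}

/-- `p` agrees with `f` if the second argument is the negation of the first. -/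
def Rail (p : (Fin n → Bool) × (Fin n → Bool) → Bool) (f : (Fin n → Bool) → Bool) : Prop :=
  ∀ x, p (x, fun i => !x i) = f x

theorem rails {a t : ℕ} {l : List ((Fin n → Bool) → Bool)} (h : SLP (Inp n) a t l) :
    ∃ l2 a', SLP (Inp2 n) a' 0 l2 ∧ a' ≤ 2 * a ∧ ∀ f, f ∈ l ∨ f ∈ Inp n →
      ∃ p q, (p ∈ l2 ∨ p ∈ Inp2 n) ∧ (q ∈ l2 ∨ q ∈ Inp2 n) ∧ Rail p f ∧ Rail q (fun x => !f x) := by
  have inp : ∀ (l2 : List ((Fin n → Bool) × (Fin n → Bool) → Bool)) (f), f ∈ Inp n →
      ∃ p q, (p ∈ l2 ∨ p ∈ Inp2 n) ∧ (q ∈ l2 ∨ q ∈ Inp2 n) ∧ Rail p f ∧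
        Rail q (fun x => !f x) := by
    rintro l2 f (⟨i, rfl⟩ | ⟨b, rfl⟩)
    · exact ⟨fun p => p.1 i, fun p => p.2 i, Or.inr (Or.inl ⟨i, rfl⟩),
        Or.inr (Or.inr (Or.inl ⟨i, rfl⟩)), fun x => rfl, fun x => rfl⟩
    · exact ⟨fun _ => b, fun _ => !b, Or.inr (Or.inr (Or.inr ⟨b, rfl⟩)),
        Or.inr (Or.inr (Or.inr ⟨!b, rfl⟩)), fun x => rfl, fun x => rfl⟩
  have step : ∀ (l2 l2' : List ((Fin n → Bool) × (Fin n → Bool) → Bool))
      (l : List ((Fin n → Bool) → Bool)), (∀ p ∈ l2, p ∈ l2') →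
      (∀ f, f ∈ l ∨ f ∈ Inp n →
      ∃ p q, (p ∈ l2 ∨ p ∈ Inp2 n) ∧ (q ∈ l2 ∨ q ∈ Inp2 n) ∧ Rail p f ∧ Rail q (fun x => !f x)) →
      ∀ f', (∃ p q, (p ∈ l2' ∨ p ∈ Inp2 n) ∧ (q ∈ l2' ∨ q ∈ Inp2 n) ∧ Rail p f' ∧
        Rail q (fun x => !f' x)) → ∀ f, f ∈ f' :: l ∨ f ∈ Inp n →
      ∃ p q, (p ∈ l2' ∨ p ∈ Inp2 n) ∧ (q ∈ l2' ∨ q ∈ Inp2 n) ∧ Rail p f ∧
        Rail q (fun x => !f x) := by
    intro l2 l2' l hll h1 f' h2 f hf
    have old : (f ∈ l ∨ f ∈ Inp n) → ∃ p q, (p ∈ l2' ∨ p ∈ Inp2 n) ∧ (q ∈ l2' ∨ q ∈ Inp2 n) ∧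
        Rail p f ∧ Rail q (fun x => !f x) := by
      intro h
      obtain ⟨p, q, a1, a2, a3, a4⟩ := h1 f h
      exact ⟨p, q, a1.imp_left (hll p), a2.imp_left (hll q), a3, a4⟩
    rcases hf with hf | hf
    · rcases List.mem_cons.1 hf with rfl | hf
      · exact h2
      · exact old (Or.inl hf)
    · exact old (Or.inr hf)
  induction h with
  | nil => exact ⟨[], 0, SLP.nil, by omega, fun f hf => inp [] f (by simpa using hf)⟩
  | not a t l f h hf ih =>
    obtain ⟨l2, a', h1, h2, h3⟩ := ih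
    refine ⟨l2, a', h1, h2, step l2 l2 l (fun _ h => h) h3 _ ?_⟩
    obtain ⟨p, q, a1, a2, a3, a4⟩ := h3 f hf
    exact ⟨q, p, a2, a1, a4, fun x => (a3 x).trans (Bool.not_not (f x)).symm⟩
  | and a t l f g h hf hg ih =>
    obtain ⟨l2, a', h1, h2, h3⟩ := ih
    obtain ⟨p, q, a1, a2, a3, a4⟩ := h3 f hf
    obtain ⟨p', q', b1, b2, b3, b4⟩ := h3 g hg
    have k1 := SLP.and _ _ _ p p' h1 a1 b1
    have k2 := SLP.or _ _ _ q q' k1 (a2.imp_left (List.mem_cons_of_mem _))
      (b2.imp_left (List.mem_cons_of_mem _))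
    refine ⟨_, _, k2, by omega, step l2 _ l
      (fun _ h => List.mem_cons_of_mem _ (List.mem_cons_of_mem _ h)) h3 _ ?_⟩
    refine ⟨_, _, Or.inl (List.mem_cons_of_mem _ List.mem_cons_self), Or.inl List.mem_cons_self,
      fun x => ?_, fun x => ?_⟩
    · show (p (x, fun i => !x i) && p' (x, fun i => !x i)) = (f x && g x)
      rw [a3 x, b3 x]
    · show (q (x, fun i => !x i) || q' (x, fun i => !x i)) = !(f x && g x)
      rw [a4 x, b4 x, Bool.not_and]
  | or a t l f g h hf hg ih =>
    obtain ⟨l2, a', h1, h2, h3⟩ := ih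
    obtain ⟨p, q, a1, a2, a3, a4⟩ := h3 f hf
    obtain ⟨p', q', b1, b2, b3, b4⟩ := h3 g hg
    have k1 := SLP.or _ _ _ p p' h1 a1 b1
    have k2 := SLP.and _ _ _ q q' k1 (a2.imp_left (List.mem_cons_of_mem _))
      (b2.imp_left (List.mem_cons_of_mem _))
    refine ⟨_, _, k2, by omega, step l2 _ l
      (fun _ h => List.mem_cons_of_mem _ (List.mem_cons_of_mem _ h)) h3 _ ?_⟩
    refine ⟨_, _, Or.inl (List.mem_cons_of_mem _ List.mem_cons_self), Or.inl List.mem_cons_self,
      fun x => ?_, fun x => ?_⟩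
    · show (p (x, fun i => !x i) || p' (x, fun i => !x i)) = (f x || g x)
      rw [a3 x, b3 x]
    · show (q (x, fun i => !x i) && q' (x, fun i => !x i)) = !(f x || g x)
      rw [a4 x, b4 x, Bool.not_or]

theorem rail {s u : ℕ} {f : (Fin n → Bool) → Bool} (h : Cs (Inp n) s u {f}) :
    ∃ p, Cs (Inp2 n) (2 * s) 0 {p} ∧ Monotone p ∧ Rail p f := by
  obtain ⟨l, a, t, h1, h2, h3, h4⟩ := h
  obtain ⟨l2, a', g1, g2, g3⟩ := rails h1
  obtain ⟨p, q, k1, k2, k3, k4⟩ := g3 f (h4 f rfl)
  have hB : ∀ f ∈ Inp2 n, Monotone f := by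
    rintro f (⟨i, rfl⟩ | ⟨i, rfl⟩ | ⟨b, rfl⟩)
    · exact fun x y hxy => hxy.1 i
    · exact fun x y hxy => hxy.2 i
    · exact fun x y _ => le_rfl
  refine ⟨p, ⟨l2, a', 0, g1, by omega, le_rfl, ?_⟩, ?_, k3⟩
  · rintro f' rfl
    exact k1
  · exact k1.elim (SLP.monotone hB g1 rfl p) (hB p)

/-! ### windows -/

/-- `f` on the slices `m, ..., m + w - 1`, continued by `0` below and by `1` above. -/
def Win {n : ℕ} (f : (Fin n → Bool) → Bool) (m w : ℕ) (x : Fin n → Bool) : Bool :=
  decide (m ≤ wt x) && (decide (m + w ≤ wt x) || f x)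

/-- The bit `i` is set to `0`. -/
def del {n : ℕ} (i : Fin n) (x : Fin n → Bool) : Fin n → Bool := Function.update x i false

theorem wt_del (i : Fin n) (x : Fin n → Bool) :
    wt (del i x) = wt x - (if x i = true then 1 else 0) := by
  unfold wt del
  by_cases hx : x i = true
  · rw [if_pos hx]
    have : (Finset.univ.filter fun j => Function.update x i false j = true) =
        (Finset.univ.filter fun j => x j = true).erase i := by
      ext j
      simp only [Finset.mem_filter, Finset.mem_univ, true_and, Finset.mem_erase]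
      by_cases hj : j = i
      · subst hj; simp
      · simp [hj]
    rw [this, Finset.card_erase_of_mem (by simp [hx])]
  · rw [if_neg hx]
    have : Function.update x i false = x := by
      funext j
      by_cases hj : j = i
      · subst hj; simp at hx; simp [hx]
      · simp [hj]
    rw [this]; rfl

theorem del_le (i : Fin n) (x : Fin n → Bool) : del i x ≤ x := by
  intro j
  unfold del
  by_cases hj : j = i
  · subst hj; simp
  · simp [hj]

theorem del_eq (i : Fin n) (x : Fin n → Bool) (hx : x i = false) : del i x = x := by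
  unfold del
  rw [← hx, Function.update_eq_self]

theorem mem_comp_del (i : Fin n) : ∀ b ∈ Inp n, b ∘ del i ∈ (∅ : Set ((Fin n → Bool) → Bool)) ∨
    b ∘ del i ∈ Inp n := by
  rintro b (⟨j, rfl⟩ | ⟨c, rfl⟩)
  · right
    by_cases hj : j = i
    · subst hj
      exact Or.inr ⟨false, by funext x; simp [del]⟩
    · exact Or.inl ⟨j, by funext x; simp [del, hj]⟩
  · exact Or.inr (Or.inr ⟨c, rfl⟩)

/-- The key identity. -/
theorem win_succ {f : (Fin n → Bool) → Bool} (hf : Monotone f)
    {p : (Fin n → Bool) × (Fin n → Bool) → Bool} (hp : Monotone p) (hpf : Rail p f) (m w : ℕ)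
    (x : Fin n → Bool) :
    Win f m (w + 1) x = (decide (m ≤ wt x) && (decide (m + (w + 1) ≤ wt x) ||
      p (x, fun i => Win f m w (del i x)))) := by
  unfold Win
  by_cases h1 : m ≤ wt x
  swap
  · simp [h1]
  by_cases h2 : m + (w + 1) ≤ wt x
  · simp [h2]
  simp only [h1, h2, decide_true, decide_false, Bool.true_and, Bool.false_or]
  rw [← hpf x]
  cases hfx : f x with
  | true =>
    have h3 : p (x, fun i => !x i) ≤ p (x, fun i => decide (m ≤ wt (del i x)) &&
        (decide (m + w ≤ wt (del i x)) || f (del i x))) := by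
      apply hp
      refine ⟨le_rfl, fun i => ?_⟩
      show (!x i) ≤ (decide (m ≤ wt (del i x)) && (decide (m + w ≤ wt (del i x)) || f (del i x)))
      cases hxi : x i with
      | true => exact Bool.false_le _
      | false =>
        rw [del_eq i x hxi, hfx]
        simp [h1]
    rw [hpf x, hfx] at h3
    rw [hpf x, hfx]
    exact le_antisymm h3 (Bool.le_true _)
  | false =>
    have h3 : p (x, fun i => decide (m ≤ wt (del i x)) &&
        (decide (m + w ≤ wt (del i x)) || f (del i x))) ≤ p (x, fun i => !x i) := by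
      apply hp
      refine ⟨le_rfl, fun i => ?_⟩
      show (decide (m ≤ wt (del i x)) && (decide (m + w ≤ wt (del i x)) || f (del i x))) ≤ (!x i)
      cases hxi : x i with
      | false => exact Bool.le_true _
      | true =>
        have h4 : f (del i x) = false := by
          have := hf (del_le i x)
          rw [hfx] at this
          exact le_antisymm this (Bool.false_le _)
        have h6 : 1 ≤ wt x := Finset.card_pos.2 ⟨i, by simp [hxi]⟩
        have h5 : ¬ m + w ≤ wt (del i x) := by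
          rw [wt_del, if_pos hxi]
          omega
        simp [h4, h5]
    rw [hpf x, hfx] at h3
    rw [hpf x, hfx]
    exact (le_antisymm h3 (Bool.false_le _)).symm

theorem win_zero (f : (Fin n → Bool) → Bool) (m : ℕ) (x : Fin n → Bool) :
    Win f m 0 x = decide (m ≤ wt x) := by
  unfold Win
  by_cases h : m ≤ wt x <;> simp [h]

/-- One more slice. -/
theorem window_step {f : (Fin n → Bool) → Bool} (hf : Monotone f) {s u : ℕ}
    (hs : Cs (Inp n) s u {f}) (m w S : ℕ) (hS : Cs (Inp n) S 0 {Win f m w}) :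
    Cs (Inp n) (n * S + 2 * s + 2 * n ^ 2 + 2) 0 {Win f m (w + 1)} := by
  obtain ⟨p, hp1, hp2, hp3⟩ := rail hs
  have h1 : Cs (Inp n) (n * S) 0 {g | ∃ i : Fin n, g = Win f m w ∘ del i} := by
    have h2 := Cs.family (B := Inp n) (c := S)
      (F := fun i => if h : i < n then Win f m w ∘ del ⟨i, h⟩ else fun _ => false) n (by
        intro i hi
        have h3 := Cs.comp (B := Inp n) (B' := Inp n) (del ⟨i, hi⟩)
          (Cs.base (Set.empty_subset (Inp n))) (mem_comp_del ⟨i, hi⟩) hS
        refine h3.mono (by omega) (by omega) ?_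
        rintro g rfl
        right
        exact ⟨_, rfl, by simp only [dif_pos hi]⟩)
    refine h2.mono le_rfl le_rfl ?_
    rintro g ⟨i, rfl⟩
    exact ⟨i, i.isLt, by simp only [dif_pos i.isLt]⟩
  have h4 := Cs.comp (B := Inp2 n) (B' := Inp n)
    (fun x => ((x, fun i => Win f m w (del i x)) : (Fin n → Bool) × (Fin n → Bool))) h1 (by
      rintro b (⟨i, rfl⟩ | ⟨i, rfl⟩ | ⟨c, rfl⟩)
      · exact Or.inr (Or.inl ⟨i, rfl⟩)
      · exact Or.inl ⟨i, rfl⟩
      · exact Or.inr (Or.inr ⟨c, rfl⟩)) hp1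
  have h5 := h4.union thr
  have h6 := h5.or (f := fun x => decide (m + (w + 1) ≤ wt x))
    (g := fun x => p (x, fun i => Win f m w (del i x)))
    (Or.inl (Or.inr ⟨_, rfl⟩)) (Or.inl (Or.inl (Or.inr ⟨p, rfl, rfl⟩)))
  have h7 := h6.and (f := fun x => decide (m ≤ wt x))
    (g := fun x => decide (m + (w + 1) ≤ wt x) || p (x, fun i => Win f m w (del i x)))
    (Or.inl (Set.mem_insert_of_mem _ (Or.inr ⟨_, rfl⟩))) (Or.inl (Set.mem_insert _ _))
  refine h7.mono (by omega) (by omega) ?_
  rintro g rfl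
  left
  funext x
  exact win_succ hf hp2 hp3 m w x

/-- **Windows of `k + 1` slices.** -/
theorem window {f : (Fin n → Bool) → Bool} (hf : Monotone f) {s u : ℕ}
    (hs : Cs (Inp n) s u {f}) (m k : ℕ) :
    Cs (Inp n) ((n + 1) ^ k * (2 * s + 2 * (n + 1) ^ 3)) 0 {Win f m (k + 1)} := by
  induction k with
  | zero =>
    have h0 : Cs (Inp n) (2 * n ^ 2) 0 {Win f m 0} := by
      refine thr.mono le_rfl le_rfl ?_
      rintro g rfl
      exact ⟨m, by funext x; rw [win_zero]⟩
    refine (window_step hf hs m 0 _ h0).mono ?_ le_rfl le_rfl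
    nlinarith [Nat.zero_le n, Nat.zero_le (n ^ 2)]
  | succ k ih =>
    refine (window_step hf hs m (k + 1) _ ih).mono ?_ le_rfl le_rfl
    have h1 : 1 ≤ (n + 1) ^ k := Nat.one_le_pow _ _ (by omega)
    have h2 : 2 * s + 2 * n ^ 2 + 2 ≤ (n + 1) ^ k * (2 * s + 2 * (n + 1) ^ 3) := by
      calc 2 * s + 2 * n ^ 2 + 2 ≤ 1 * (2 * s + 2 * (n + 1) ^ 3) := by
            nlinarith [Nat.zero_le n, Nat.zero_le (n ^ 2), Nat.zero_le (n ^ 3)]
        _ ≤ _ := Nat.mul_le_mul_right _ h1
    calc n * ((n + 1) ^ k * (2 * s + 2 * (n + 1) ^ 3)) + 2 * s + 2 * n ^ 2 + 2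
        ≤ n * ((n + 1) ^ k * (2 * s + 2 * (n + 1) ^ 3)) +
          (n + 1) ^ k * (2 * s + 2 * (n + 1) ^ 3) := by omega
      _ = (n + 1) ^ (k + 1) * (2 * s + 2 * (n + 1) ^ 3) := by ring

/-! ### few NOT gates -/

/-- Selection with `t` NOT gates. -/
theorem select {V : Type} (B : Set (V → Bool)) : ∀ (t : ℕ) (J : V → ℕ) (g : ℕ → V → Bool)
    (M : Set (V → Bool)) (a t₀ : ℕ), (∀ x, J x < 2 ^ t) →
    (∀ j, 1 ≤ j → j < 2 ^ t → (fun x => decide (j ≤ J x)) ∈ M) → (∀ j < 2 ^ t, g j ∈ M) →
    Cs B a t₀ M → Cs B (a + 5 * 2 ^ t) (t₀ + t) {fun x => g (J x) x} := by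
  intro t
  induction t with
  | zero =>
    intro J g M a t₀ hJ _ hg h
    refine h.mono (by omega) (by omega) ?_
    rintro f rfl
    have : (fun x => g (J x) x) = g 0 := by
      funext x
      have := hJ x
      rw [show J x = 0 by simpa using this]
    rw [this]
    exact hg 0 (by norm_num)
  | succ t ih =>
    intro J g M a t₀ hJ hτ hg h
    have hpos : 1 ≤ 2 ^ t := Nat.one_le_two_pow
    have hp2 : 2 ^ (t + 1) = 2 * 2 ^ t := by rw [pow_succ]; ring
    set H := 2 ^ t with hH
    have hu : (fun x => decide (H ≤ J x)) ∈ M := hτ H (by omega) (by omega)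
    have h1 := h.not (Or.inl hu)
    set M1 := insert (fun x => !decide (H ≤ J x)) M with hM1
    have hM1' : M ⊆ M1 := Set.subset_insert _ _
    have hnu : (fun x => !decide (H ≤ J x)) ∈ M1 := Set.mem_insert _ _
    have hB1 : ∀ f ∈ M1, f ∈ B ∪ M1 := fun f hf => Or.inr hf
    -- the new thresholds
    have h2 := Cs.family (B := B ∪ M1) (c := 2) (F := fun i x =>
        ((!decide (H ≤ J x)) && decide (i + 1 ≤ J x)) || decide (i + 1 + H ≤ J x)) (H - 1) (by
      intro i hi
      have g0 : Cs (B ∪ M1) 0 0 ∅ := Cs.base (Set.empty_subset _)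
      have g1 := g0.and (f := fun x => !decide (H ≤ J x)) (g := fun x => decide (i + 1 ≤ J x))
        (Or.inr (hB1 _ hnu)) (Or.inr (hB1 _ (hM1' (hτ (i + 1) (by omega) (by omega)))))
      have g2 := g1.or (f := fun x => (!decide (H ≤ J x)) && decide (i + 1 ≤ J x))
        (g := fun x => decide (i + 1 + H ≤ J x)) (Or.inl (Set.mem_insert _ _))
        (Or.inr (hB1 _ (hM1' (hτ (i + 1 + H) (by omega) (by omega)))))
      refine g2.mono le_rfl le_rfl ?_
      rintro f rfl
      exact Or.inl rfl)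
    -- the new functions
    have h3 := Cs.family (B := B ∪ M1) (c := 3) (F := fun i x =>
        ((!decide (H ≤ J x)) && g i x) || (decide (H ≤ J x) && g (i + H) x)) H (by
      intro i hi
      have g0 : Cs (B ∪ M1) 0 0 ∅ := Cs.base (Set.empty_subset _)
      have g1 := g0.and (f := fun x => !decide (H ≤ J x)) (g := g i)
        (Or.inr (hB1 _ hnu)) (Or.inr (hB1 _ (hM1' (hg i (by omega)))))
      have g2 := g1.and (f := fun x => decide (H ≤ J x)) (g := g (i + H))
        (Or.inr (hB1 _ (hM1' hu))) (Or.inr (hB1 _ (hM1' (hg (i + H) (by omega)))))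
      have g3 := g2.or (f := fun x => (!decide (H ≤ J x)) && g i x)
        (g := fun x => decide (H ≤ J x) && g (i + H) x)
        (Or.inl (Set.mem_insert_of_mem _ (Set.mem_insert _ _))) (Or.inl (Set.mem_insert _ _))
      refine g3.mono le_rfl le_rfl ?_
      rintro f rfl
      exact Or.inl rfl)
    have h4 := h1.trans (h2.union h3)
    have h5 := ih (fun x => if H ≤ J x then J x - H else J x)
      (fun i x => ((!decide (H ≤ J x)) && g i x) || (decide (H ≤ J x) && g (i + H) x)) _ _ _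
      (fun x => by
        have := hJ x
        show (if H ≤ J x then J x - H else J x) < H
        split_ifs <;> omega)
      (fun j hj1 hj2 => by
        refine Or.inr (Or.inl ⟨j - 1, by omega, ?_⟩)
        funext x
        have := hJ x
        rw [show j - 1 + 1 = j by omega]
        by_cases hx : H ≤ J x
        · simp only [hx, if_true, decide_true, Bool.not_true, Bool.false_and, Bool.false_or,
            decide_eq_decide]
          omega
        · simp only [hx, if_false, decide_false, Bool.not_false, Bool.true_and]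
          rw [Bool.eq_iff_iff, Bool.or_eq_true]
          simp only [decide_eq_true_eq]
          omega)
      (fun j hj => Or.inr (Or.inr ⟨j, hj, rfl⟩)) h4
    refine h5.mono ?_ ?_ ?_
    · omega
    · omega
    · rintro f rfl
      show (fun x => g (J x) x) = _
      funext x
      by_cases hx : H ≤ J x
      · simp only [hx, if_true, decide_true, Bool.not_true, Bool.false_and, Bool.false_or,
          Bool.true_and]
        rw [Nat.sub_add_cancel hx]
      · simp only [hx, if_false, decide_false, Bool.not_false, Bool.true_and, Bool.false_and,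
          Bool.or_false]

/-- **Windows of `(k + 1) 2 ^ t` slices with `t` NOT gates.** -/
theorem few_nots {f : (Fin n → Bool) → Bool} (hf : Monotone f) {s u : ℕ}
    (hs : Cs (Inp n) s u {f}) (m k t : ℕ) :
    Cs (Inp n) (2 ^ t * ((n + 1) ^ k * (2 * s + 2 * (n + 1) ^ 3) + 5) + 2 * n ^ 2) t
      {Win f m ((k + 1) * 2 ^ t)} := by
  have h1 := Cs.family (B := Inp n) (F := fun j => Win f (m + (k + 1) * j) (k + 1)) (2 ^ t)
    (fun j _ => window hf hs (m + (k + 1) * j) k)
  have h2 := h1.union thr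
  have hpos : 1 ≤ 2 ^ t := Nat.one_le_two_pow
  have h3 := select (Inp n) t (fun x => min ((wt x - m) / (k + 1)) (2 ^ t - 1))
    (fun j => Win f (m + (k + 1) * j) (k + 1)) _ _ _ (fun x => by
      show min ((wt x - m) / (k + 1)) (2 ^ t - 1) < 2 ^ t
      omega)
    (fun j hj1 hj2 => by
      refine Or.inr ⟨m + (k + 1) * j, ?_⟩
      funext x
      rw [decide_eq_decide]
      have h4 : (j ≤ (wt x - m) / (k + 1)) ↔ j * (k + 1) ≤ wt x - m :=
        Nat.le_div_iff_mul_le (by omega)
      have h5 : (k + 1) * j = j * (k + 1) := mul_comm _ _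
      have h6 : 1 * 1 ≤ j * (k + 1) := Nat.mul_le_mul hj1 (by omega)
      constructor
      · intro h
        have h7 := h4.1 (h.trans (min_le_left _ _))
        omega
      · intro h
        exact le_min (h4.2 (by omega)) (by omega))
    (fun j hj => Or.inl ⟨j, hj, rfl⟩) h2
  refine h3.mono (le_of_eq (by ring)) (by omega) ?_
  rintro g rfl
  show Win f m ((k + 1) * 2 ^ t) = _
  funext x
  set J := min ((wt x - m) / (k + 1)) (2 ^ t - 1) with hJ
  have hdiv := Nat.div_add_mod (wt x - m) (k + 1)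
  have hmod := Nat.mod_lt (wt x - m) (show 0 < k + 1 by omega)
  by_cases h4 : wt x < m
  · have h5 : J = 0 := by
      rw [hJ, show wt x - m = 0 by omega, Nat.zero_div]
      simp
    rw [h5]
    unfold Win
    simp [show ¬ m ≤ wt x by omega]
  · by_cases h5 : (wt x - m) / (k + 1) ≤ 2 ^ t - 1
    · have h6 : J = (wt x - m) / (k + 1) := by rw [hJ]; exact min_eq_left h5
      rw [h6]
      have h7 : m + (k + 1) * ((wt x - m) / (k + 1)) ≤ wt x := by omega
      have h8 : wt x < m + (k + 1) * ((wt x - m) / (k + 1)) + (k + 1) := by omega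
      have h9 : (k + 1) * ((wt x - m) / (k + 1)) + (k + 1) ≤ (k + 1) * 2 ^ t := by
        calc (k + 1) * ((wt x - m) / (k + 1)) + (k + 1)
            = (k + 1) * ((wt x - m) / (k + 1) + 1) := by ring
          _ ≤ (k + 1) * 2 ^ t := Nat.mul_le_mul_left _ (by omega)
      unfold Win
      simp [show m ≤ wt x by omega, h7, show ¬ m + (k + 1) * 2 ^ t ≤ wt x by omega,
        show ¬ m + (k + 1) * ((wt x - m) / (k + 1)) + (k + 1) ≤ wt x by omega]
    · have h6 : J = 2 ^ t - 1 := by rw [hJ]; exact min_eq_right (by omega)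
      rw [h6]
      have h7 : (k + 1) * 2 ^ t ≤ (k + 1) * ((wt x - m) / (k + 1)) :=
        Nat.mul_le_mul_left _ (by omega)
      have h8 : (k + 1) * (2 ^ t - 1) + (k + 1) = (k + 1) * 2 ^ t := by
        obtain ⟨q, hq⟩ : ∃ q, 2 ^ t = q + 1 := ⟨2 ^ t - 1, by omega⟩
        rw [hq, Nat.add_sub_cancel]
        ring
      unfold Win
      simp [show m ≤ wt x by omega, show m + (k + 1) * 2 ^ t ≤ wt x by omega,
        show m + (k + 1) * (2 ^ t - 1) ≤ wt x by omega,
        show m + (k + 1) * (2 ^ t - 1) + (k + 1) ≤ wt x by omega]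

end Pool.Agent.W954.Sav
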